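import Pool.Agent.Q238.FP.J

/-!
# Small cells
-/

set_option autoImplicit false

namespace Pool.Agent.Q238.FP.Core

variable {D E V : Type} (C : Core D E V)

theorem no1 (d : D) : C.n d ≠ d := by
  intro h
  rcases Nat.eq_zero_or_pos (C.mu d) with h0 | h0
  · have := C.real_hv d h0
    rw [h] at this
    exact C.hv_r _ this
  · have := (C.disj d h0).1
    rw [h] at this
    exact this rfl

theorem no2a {d : D} (h : C.n (C.n d) = d) (h1 : 0 < C.mu d) (h2 : C.mu (C.n d) = 0) : False := by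
  have h3 := C.real_hv (C.n d) h2
  have h4 := (C.disj d h1).2.2.1
  rw [h] at h3
  exact h4 h3

theorem no2 {d : D} (hs : C.sg d) (h : C.n (C.n d) = d) : False := by
  have hp : C.p d = C.n d := C.n_inj (by rw [C.n_p, h])
  have h' : C.n (C.n (C.n d)) = C.n d := by rw [h]
  rcases Nat.eq_zero_or_pos (C.mu d) with h0 | h0 <;>
    rcases Nat.eq_zero_or_pos (C.mu (C.n d)) with h1 | h1
  · -- two full edges
    have e0 : C.mu (C.r d) = 0 := by rw [← C.mu_p, hp, h1]
    have e1 : C.mu (C.r (C.n d)) = 0 := by rw [← C.mu_p, C.p_n, h0]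
    have v1 := C.real_hv d h0
    have v2 := C.real_hv (C.n d) h1
    rw [h] at v2
    by_cases he : C.ed (C.n d) = C.ed d
    · have h2 : C.n d = C.r d := C.ext _ _ (by rw [he, C.ed_r]) v2.symm (by rw [h1, e0])
      refine C.nodeg d ⟨hs, h2, ?_⟩
      rw [← h2, h]
    · obtain ⟨x, hx, hx1, hx2, hx3⟩ := C.lensS d (C.r (C.n d)) (by rw [C.ed_r]; exact Ne.symm he)
        v1.symm (by rw [C.r_r, v2]) (fun x => x = d ∨ x = C.n d)
        (fun x => by
          constructor
          · rintro (hx | hx)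
            · right; rw [← C.p_n x, hx, hp]
            · left; exact C.n_inj hx
          · rintro (rfl | rfl)
            · right; rfl
            · left; exact h)
        (fun x hx => by
          rcases hx with rfl | rfl
          · exact hs
          · simpa using hs)
        (fun x => by
          rw [C.ed_r]
          have key : ∀ y, C.ed x = C.ed y → C.mu y = 0 → C.mu (C.r y) = 0 → x = y ∨ x = C.r y := by
            intro y hy hy1 hy2
            have h3 := C.mu_ed x y hy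
            rcases C.hv_ed x y hy with h4 | h4
            · left; exact C.ext _ _ hy h4 (by omega)
            · right
              exact C.ext _ _ (by rw [hy, C.ed_r]) h4 (by omega)
          have n1 : C.r d ≠ d := fun hh => C.hv_r d (by rw [hh])
          have n2 : C.r (C.n d) ≠ C.n d := fun hh => C.hv_r (C.n d) (by rw [hh])
          have n3 : C.r d ≠ C.n d := fun hh => he (by rw [← hh, C.ed_r])
          have n4 : C.r (C.n d) ≠ d := fun hh => he (by rw [← C.ed_r (C.n d), hh])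
          constructor
          · intro h5
            refine ⟨fun hx => ?_, fun hx => ?_⟩
            · rcases key d hx h0 e0 with rfl | rfl
              · rcases h5.1 (Or.inl rfl) with h6 | h6
                · exact n1 h6
                · exact n3 h6
              · rcases h5.2 (Or.inl (C.r_r _)) with h6 | h6
                · exact n1 h6
                · exact n3 h6
            · rcases key (C.n d) hx h1 e1 with rfl | rfl
              · rcases h5.1 (Or.inr rfl) with h6 | h6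
                · exact n4 h6
                · exact n2 h6
              · rcases h5.2 (Or.inr (C.r_r _)) with h6 | h6
                · exact n4 h6
                · exact n2 h6
          · rintro ⟨h5, h6⟩
            constructor
            · rintro (rfl | rfl)
              · exact absurd rfl h5
              · exact absurd rfl h6
            · rintro (h7 | h7)
              · exact absurd (by rw [← C.ed_r x, h7]) h5
              · exact absurd (by rw [← C.ed_r x, h7]) h6)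
      rcases hx with rfl | rfl
      · exact hx3 rfl
      · exact hx2 v1
  · exact C.no2a h' h1 (by rw [h]; exact h0)
  · exact C.no2a h h0 h1
  · -- two edges crossing twice
    have h3 : 0 < C.mu (C.r d) := by rw [← C.mu_p_pos, hp]; exact h1
    have h4 := C.mu_bk d h3
    have h5 := C.once d (C.bk d) h0 (by omega) (C.ed_bk d h3).symm (C.hv_bk d h3).symm
      (by rw [C.n_bk d h3, C.ed_r, hp])
    rw [← h5] at h4
    omega

theorem no3 {d : D} (h : C.n (C.n (C.n d)) = d) (h0 : 0 < C.mu d) (h1 : 0 < C.mu (C.n d))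
    (h2 : 0 < C.mu (C.n (C.n d))) : False := by
  have hp : C.p d = C.n (C.n d) := C.n_inj (by rw [C.n_p, h])
  have h3 : 0 < C.mu (C.r d) := by rw [← C.mu_p_pos, hp]; exact h2
  have h4 := C.disj (C.n d) h1
  by_cases ha : C.ap d
  · have := (C.fan d h0 h3).1 ha
    rw [hp] at this
    exact h4.2.1 this
  · have := (C.fan d h0 h3).2 ha
    rw [hp] at this
    exact h4.2.2.1 this

theorem fan' {d : D} (h : C.XX d) :
    C.hv (C.n d) = C.hv (C.r (C.p d)) ∨ C.hv (C.r (C.n d)) = C.hv (C.p d) := by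
  by_cases ha : C.ap d
  · exact Or.inl ((C.fan d h.1 h.2).1 ha)
  · exact Or.inr ((C.fan d h.1 h.2).2 ha)

/-- the fan relation for three consecutive darts -/
theorem fanN {x : D} (h0 : 0 < C.mu x) (h1 : 0 < C.mu (C.n x)) :
    C.hv (C.n (C.n x)) = C.hv (C.r x) ∨ C.hv (C.r (C.n (C.n x))) = C.hv x := by
  have := C.fan' (d := C.n x) ⟨h1, (C.mu_rn_pos x).2 h0⟩
  rwa [C.p_n] at this

/-- for `P` at an inner side, both fan relations hold -/
theorem parN {x : D} (h0 : 0 < C.mu x) (h1 : 0 < C.mu (C.n x)) (hP : C.P (C.n x)) :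
    C.hv (C.n (C.n x)) = C.hv (C.r x) ∧ C.hv (C.r (C.n (C.n x))) = C.hv x := by
  have h2 := hP.2
  rw [C.p_n] at h2
  have h3 := C.fanN h0 h1
  rcases h2 with h2 | h2
  · exfalso
    rcases h3 with h3 | h3
    · exact C.hv_r x (by rw [h2.1, h3])
    · exact C.hv_r x (by rw [h2.2, h3])
  · exact ⟨h2.2.symm, h2.1.symm⟩

theorem f5 {d : D} (h : C.n (C.n (C.n (C.n (C.n d)))) = d) (h0 : 0 < C.mu d)
    (h1 : 0 < C.mu (C.n d)) (h2 : 0 < C.mu (C.n (C.n d))) (h3 : 0 < C.mu (C.n (C.n (C.n d))))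
    (h4 : 0 < C.mu (C.n (C.n (C.n (C.n d))))) (hP : C.P (C.n d)) : False := by
  -- `d` and `nnd` are parallel
  have a1 := C.parN h0 h1 hP
  -- `nnnnd` is crossed by `d`, and shares an end with `nnd`
  have a2 := C.disj _ h4
  rw [h] at a2
  have a3 := C.fanN h2 h3
  rw [a1.1, a1.2] at a3
  rcases a3 with a3 | a3
  · exact a2.1 a3
  · exact a2.2.2.2 a3

theorem f6 {d : D} (h : C.n (C.n (C.n (C.n (C.n (C.n d))))) = d) (h0 : 0 < C.mu d)
    (h1 : 0 < C.mu (C.n d)) (h2 : 0 < C.mu (C.n (C.n d))) (h3 : 0 < C.mu (C.n (C.n (C.n d))))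
    (h4 : 0 < C.mu (C.n (C.n (C.n (C.n d)))))
    (h5 : 0 < C.mu (C.n (C.n (C.n (C.n (C.n d)))))) (hP : C.P (C.n d)) : False := by
  have a1 := C.parN h0 h1 hP
  have a2 := C.fanN h2 h3
  have a3 := C.fanN h4 h5
  rw [h] at a3
  have a4 := C.hv_r (C.n (C.n (C.n (C.n d))))
  have a5 := C.hv_r d
  rw [a1.1, a1.2] at a2
  rcases a2 with a2 | a2 <;> rcases a3 with a3 | a3
  · exact a4 (by rw [a2, a3])
  · exact a5 (by rw [a3, a2])
  · exact a5 (by rw [← a2, a3])
  · exact a4 (by rw [a2, a3])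

theorem f7a {d : D} (h : C.n (C.n (C.n (C.n (C.n (C.n (C.n d)))))) = d) (h0 : 0 < C.mu d)
    (h1 : 0 < C.mu (C.n d)) (h2 : 0 < C.mu (C.n (C.n d))) (h3 : 0 < C.mu (C.n (C.n (C.n d))))
    (h4 : 0 < C.mu (C.n (C.n (C.n (C.n d)))))
    (h5 : 0 < C.mu (C.n (C.n (C.n (C.n (C.n d))))))
    (h6 : 0 < C.mu (C.n (C.n (C.n (C.n (C.n (C.n d)))))))
    (hP : C.P (C.n d)) (hP' : C.P (C.n (C.n (C.n d)))) : False := by
  have a1 := C.parN h0 h1 hP
  have a2 := C.parN h2 h3 hP'
  have a3 := C.fanN h4 h5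
  have a4 := C.disj _ h6
  rw [h] at a4
  rcases a3 with a3 | a3
  · exact a4.2.1 (by rw [a3, a2.2, a1.1])
  · exact a4.2.2.1 (by rw [a3, a2.1, a1.2])

theorem f7b {d : D} (h : C.n (C.n (C.n (C.n (C.n (C.n (C.n d)))))) = d) (h0 : 0 < C.mu d)
    (h1 : 0 < C.mu (C.n d)) (h2 : 0 < C.mu (C.n (C.n d))) (h3 : 0 < C.mu (C.n (C.n (C.n d))))
    (h4 : 0 < C.mu (C.n (C.n (C.n (C.n d)))))
    (h5 : 0 < C.mu (C.n (C.n (C.n (C.n (C.n d))))))
    (h6 : 0 < C.mu (C.n (C.n (C.n (C.n (C.n (C.n d)))))))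
    (hP : C.P (C.n d)) (hP' : C.P (C.n (C.n (C.n (C.n d))))) : False := by
  have a1 := C.parN h0 h1 hP
  have a2 := C.parN h3 h4 hP'
  have a3 := C.fanN h5 h6
  have a4 := C.disj _ h2
  rw [h] at a3
  rcases a3 with a3 | a3
  · exact a4.2.2.1 (by rw [a1.2, a3, a2.2])
  · exact a4.2.1 (by rw [a1.1, a3, a2.1])

theorem f4a {d : D} (h : C.n (C.n (C.n (C.n d))) = d) (h0 : 0 < C.mu d)
    (h1 : 0 < C.mu (C.n d)) (h2 : 0 < C.mu (C.n (C.n d))) (h3 : C.mu (C.n (C.n (C.n d))) = 0)
    (hP : C.P (C.n d)) : False := by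
  have a1 := C.parN h0 h1 hP
  have a2 := C.real_hv _ h3
  have a3 := C.disj _ h2
  rw [h] at a2
  exact a3.1 (by rw [a1.1, a2])

theorem f4b {d : D} (h : C.n (C.n (C.n (C.n d))) = d) (h0 : 0 < C.mu d)
    (h1 : 0 < C.mu (C.n d)) (h2 : 0 < C.mu (C.n (C.n d))) (h3 : C.mu (C.n (C.n (C.n d))) = 0)
    (hP : C.P (C.n (C.n d))) : False := by
  have a1 := C.parN h1 h2 hP
  have a2 := C.real_hv _ h3
  have a3 := C.disj _ h0
  rw [h] at a2
  exact a3.2.2.2 (by rw [a2, a1.1])

theorem f51a {d : D} (h : C.n (C.n (C.n (C.n (C.n d)))) = d) (h0 : 0 < C.mu d)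
    (h1 : 0 < C.mu (C.n d)) (h2 : 0 < C.mu (C.n (C.n d))) (h3 : 0 < C.mu (C.n (C.n (C.n d))))
    (h4 : C.mu (C.n (C.n (C.n (C.n d)))) = 0) (hP : C.P (C.n d)) : False := by
  have a1 := C.parN h0 h1 hP
  have a2 := C.real_hv _ h4
  rw [h] at a2
  have a3 := C.fanN h2 h3
  rcases a3 with a3 | a3
  · exact C.hv_r d (by rw [a2, a3, a1.2])
  · exact C.hv_r (C.n (C.n (C.n (C.n d)))) (by rw [a3, a1.1, a2])

theorem f51b {d : D} (h : C.n (C.n (C.n (C.n (C.n d)))) = d) (h0 : 0 < C.mu d)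
    (h1 : 0 < C.mu (C.n d)) (h2 : 0 < C.mu (C.n (C.n d))) (h3 : 0 < C.mu (C.n (C.n (C.n d))))
    (h4 : C.mu (C.n (C.n (C.n (C.n d)))) = 0) (hP : C.P (C.n (C.n (C.n d)))) : False := by
  have a1 := C.parN h2 h3 hP
  have a2 := C.real_hv _ h4
  rw [h] at a2
  have a3 := C.fanN h0 h1
  rcases a3 with a3 | a3
  · exact C.hv_r (C.n (C.n (C.n (C.n d)))) (by rw [a1.2, a3, a2])
  · exact C.hv_r d (by rw [a2, a1.1, a3])

end Pool.Agent.Q238.FP.Core
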