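import Mathlib

/-!
# The abstract core of the counting proof
-/

set_option autoImplicit false

namespace Pool.Agent.Q238.FP

/-- The darts of a fan-planar drawing, with the facts which the counting proof uses. -/
structure Core (D E V : Type) where
  r : D → D
  n : D → D
  p : D → D
  ed : D → E
  hv : D → V
  mu : D → ℕ
  ap : D → Prop
  sg : D → Prop
  r_r : ∀ d, r (r d) = d
  n_p : ∀ d, n (p d) = d
  p_n : ∀ d, p (n d) = d
  ed_r : ∀ d, ed (r d) = ed d
  hv_r : ∀ d, hv (r d) ≠ hv d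
  hv_ed : ∀ d d', ed d = ed d' → hv d = hv d' ∨ hv d = hv (r d')
  ext : ∀ d d', ed d = ed d' → hv d = hv d' → mu d = mu d' → d = d'
  mu_ed : ∀ d d', ed d = ed d' → mu d + mu (r d) = mu d' + mu (r d')
  real_mu : ∀ d, mu d = 0 ↔ mu (r (n d)) = 0
  real_hv : ∀ d, mu d = 0 → hv (r (n d)) = hv d
  st_mu : ∀ d, 0 < mu d → mu d = mu (n (r (n d))) + 1
  st_ed : ∀ d, 0 < mu d → ed (n (r (n d))) = ed d
  st_hv : ∀ d, 0 < mu d → hv (n (r (n d))) = hv d
  turn : ∀ d, 0 < mu d → n (r (n (r (n (r (n d)))))) = r d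
  disj : ∀ d, 0 < mu d → hv d ≠ hv (n d) ∧ hv d ≠ hv (r (n d)) ∧ hv (r d) ≠ hv (n d) ∧
    hv (r d) ≠ hv (r (n d))
  once : ∀ d d', 0 < mu d → 0 < mu d' → ed d = ed d' → hv d = hv d' → ed (n d) = ed (n d') → d = d'
  ap_r : ∀ d, ap (r d) ↔ ¬ ap d
  ap_ed : ∀ d d', ed d = ed d' → hv d = hv d' → (ap d ↔ ap d')
  fan_l : ∀ d d', ap d → 0 < mu d → 0 < mu d' → ed d = ed d' → hv d = hv d' → hv (n d) = hv (n d')
  fan_r : ∀ d d', ¬ ap d → 0 < mu d → 0 < mu d' → ed d = ed d' → hv d = hv d' →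
    hv (r (n d)) = hv (r (n d'))
  sg_n : ∀ d, sg (n d) ↔ sg d
  vert : ∀ (Q : D → Prop) (d d' : D), mu (r d) = 0 → mu (r d') = 0 → hv (r d) = hv (r d') →
    (∀ x, mu (r x) = 0 → hv (r x) = hv (r d) → Q x → Q (n (r x))) → Q d → Q d'
  lensA : ∀ d d', ed d ≠ ed d' → hv d = hv d' → hv (r d) = hv (r d') →
    ∃ A : D → Prop, (∀ x, A (n x) ↔ A x) ∧ ∀ x, (A x ↔ A (r x)) ↔ ed x ≠ ed d ∧ ed x ≠ ed d'
  lensS : ∀ d d', ed d ≠ ed d' → hv d = hv d' → hv (r d) = hv (r d') →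
    ∀ S : D → Prop, (∀ x, S (n x) ↔ S x) → (∀ x, S x → sg x) →
    (∀ x, (S x ↔ S (r x)) ↔ ed x ≠ ed d ∧ ed x ≠ ed d') →
    ∃ x, S x ∧ mu (r x) = 0 ∧ hv (r x) ≠ hv d ∧ hv (r x) ≠ hv (r d)
  nodeg : ∀ d, ¬ (sg d ∧ n d = r d ∧ n (r d) = d)

namespace Core

variable {D E V : Type} (C : Core D E V)

attribute [simp] Core.r_r Core.n_p Core.p_n Core.ed_r Core.sg_n

theorem r_inj {a b : D} (h : C.r a = C.r b) : a = b := by
  rw [← C.r_r a, h, C.r_r]

theorem n_inj {a b : D} (h : C.n a = C.n b) : a = b := by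
  rw [← C.p_n a, h, C.p_n]

theorem p_inj {a b : D} (h : C.p a = C.p b) : a = b := by
  rw [← C.n_p a, h, C.n_p]

theorem sg_p (d : D) : C.sg (C.p d) ↔ C.sg d := by
  rw [← C.sg_n (C.p d), C.n_p]

/-- the other end of an edge: directions on an edge -/
theorem hv_r_of (d d' : D) (h : C.ed d = C.ed d') (h' : C.hv d = C.hv d') :
    C.hv (C.r d) = C.hv (C.r d') := by
  have h1 := C.hv_ed (C.r d) d' (by simpa using h)
  rcases h1 with h1 | h1
  · exact absurd (h1.trans h'.symm) (C.hv_r d)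
  · exact h1

theorem hv_of_r (d d' : D) (h : C.ed d = C.ed d') (h' : C.hv (C.r d) = C.hv (C.r d')) :
    C.hv d = C.hv d' := by
  have := C.hv_r_of (C.r d) (C.r d') (by simpa using h) h'
  simpa using this

/-- opposite directions -/
theorem hv_r_of' (d d' : D) (h : C.ed d = C.ed d') (h' : C.hv d = C.hv (C.r d')) :
    C.hv (C.r d) = C.hv d' := by
  have := C.hv_r_of d (C.r d') (by simpa using h) h'
  simpa using this

theorem dir (d d' : D) (h : C.ed d = C.ed d') :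
    (C.hv d = C.hv d' ∧ C.hv (C.r d) = C.hv (C.r d')) ∨
      (C.hv d = C.hv (C.r d') ∧ C.hv (C.r d) = C.hv d') := by
  rcases C.hv_ed d d' h with h1 | h1
  · exact Or.inl ⟨h1, C.hv_r_of d d' h h1⟩
  · exact Or.inr ⟨h1, C.hv_r_of' d d' h h1⟩

/-- real tails: `mu (r d) = 0 ↔ mu (p d) = 0` -/
theorem mu_p (d : D) : C.mu (C.p d) = 0 ↔ C.mu (C.r d) = 0 := by
  rw [C.real_mu (C.p d), C.n_p]

theorem mu_p_pos (d : D) : 0 < C.mu (C.p d) ↔ 0 < C.mu (C.r d) := by
  rw [Nat.pos_iff_ne_zero, Nat.pos_iff_ne_zero, Ne, Ne, C.mu_p]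

theorem mu_rn_pos (d : D) : 0 < C.mu (C.r (C.n d)) ↔ 0 < C.mu d := by
  rw [Nat.pos_iff_ne_zero, Nat.pos_iff_ne_zero, Ne, Ne, ← C.real_mu]

theorem hv_p (d : D) (h : C.mu (C.r d) = 0) : C.hv (C.p d) = C.hv (C.r d) := by
  have := C.real_hv (C.p d) ((C.mu_p d).2 h)
  rw [C.n_p] at this
  exact this.symm

/-- straight on at a crossing point -/
def st (d : D) : D := C.n (C.r (C.n d))

/-- right turn at a crossing point -/
def rt (d : D) : D := C.r (C.p (C.r d))

theorem mu_st (d : D) (h : 0 < C.mu d) : C.mu d = C.mu (C.st d) + 1 := C.st_mu d h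
theorem ed_st (d : D) (h : 0 < C.mu d) : C.ed (C.st d) = C.ed d := C.st_ed d h
theorem hv_st (d : D) (h : 0 < C.mu d) : C.hv (C.st d) = C.hv d := C.st_hv d h

theorem hv_r_st (d : D) (h : 0 < C.mu d) : C.hv (C.r (C.st d)) = C.hv (C.r d) :=
  C.hv_r_of _ _ (C.ed_st d h) (C.hv_st d h)

theorem mu_r_st (d : D) (h : 0 < C.mu d) : C.mu (C.r (C.st d)) = C.mu (C.r d) + 1 := by
  have h1 := C.mu_ed _ _ (C.ed_st d h)
  have h2 := C.mu_st d h
  omega

/-- the right turn is straight on for the reversed left turn -/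
theorem rt_eq (d : D) (h : 0 < C.mu d) : C.rt d = C.st (C.r (C.n d)) := by
  have h1 := C.turn d h
  unfold rt st
  rw [← h1, C.p_n, C.r_r]

theorem p_r (d : D) (h : 0 < C.mu d) : C.p (C.r d) = C.r (C.st (C.r (C.n d))) := by
  rw [← C.rt_eq d h, rt, C.r_r]

theorem st_r_st (d : D) (h : 0 < C.mu d) : C.st (C.r (C.st d)) = C.r d := by
  unfold st
  exact C.turn d h

/-- `n` from the straight dart: the dart which reaches the crossing point from the other side -/
theorem n_r_st (d : D) (h : 0 < C.mu d) : C.n (C.r (C.st d)) = C.st (C.r (C.n d)) := rfl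

theorem ed_rt (d : D) (h : 0 < C.mu d) : C.ed (C.rt d) = C.ed (C.n d) := by
  rw [C.rt_eq d h, C.ed_st _ ((C.mu_rn_pos d).2 h), C.ed_r]

theorem hv_rt (d : D) (h : 0 < C.mu d) : C.hv (C.rt d) = C.hv (C.r (C.n d)) := by
  rw [C.rt_eq d h, C.hv_st _ ((C.mu_rn_pos d).2 h)]

theorem hv_r_rt (d : D) (h : 0 < C.mu d) : C.hv (C.r (C.rt d)) = C.hv (C.n d) := by
  rw [C.rt_eq d h, C.hv_r_st _ ((C.mu_rn_pos d).2 h), C.r_r]

theorem mu_rt (d : D) (h : 0 < C.mu d) : C.mu (C.r (C.n d)) = C.mu (C.rt d) + 1 := by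
  rw [C.rt_eq d h, C.mu_st _ ((C.mu_rn_pos d).2 h)]

/-- the straight dart, seen from the right -/
theorem st_eq_rt (d : D) (h : 0 < C.mu d) : C.rt (C.r (C.rt d)) = C.st d := by
  have h1 : 0 < C.mu (C.r (C.rt d)) := by
    rw [C.rt_eq d h, C.mu_r_st _ ((C.mu_rn_pos d).2 h)]
    omega
  rw [C.rt_eq _ h1]
  unfold st
  have h2 : C.n (C.r (C.rt d)) = C.r d := by rw [rt, C.r_r, C.n_p]
  rw [h2, C.r_r]

/-- the dart before `d` on its edge -/
def bk (d : D) : D := C.r (C.st (C.r d))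

theorem mu_bk (d : D) (h : 0 < C.mu (C.r d)) : C.mu (C.bk d) = C.mu d + 1 := by
  have := C.mu_r_st (C.r d) h
  rwa [C.r_r] at this

theorem ed_bk (d : D) (h : 0 < C.mu (C.r d)) : C.ed (C.bk d) = C.ed d := by
  unfold bk
  rw [C.ed_r, C.ed_st _ h, C.ed_r]

theorem hv_bk (d : D) (h : 0 < C.mu (C.r d)) : C.hv (C.bk d) = C.hv d := by
  unfold bk
  rw [C.hv_r_st _ h, C.r_r]

theorem st_bk (d : D) (h : 0 < C.mu (C.r d)) : C.st (C.bk d) = d := by
  unfold bk
  rw [C.st_r_st _ h, C.r_r]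

/-- the left turn before `d` -/
theorem n_bk (d : D) (h : 0 < C.mu (C.r d)) : C.n (C.bk d) = C.r (C.p d) := by
  have h1 := C.turn (C.p d) ((C.mu_p_pos d).2 h)
  rw [C.n_p] at h1
  exact h1

theorem st_p (d : D) : C.st (C.p d) = C.n (C.r d) := by
  unfold st
  rw [C.n_p]

/-! ### disjointness at a crossing point, for the tail -/

theorem disj_p (d : D) (h : 0 < C.mu (C.r d)) :
    C.hv d ≠ C.hv (C.p d) ∧ C.hv d ≠ C.hv (C.r (C.p d)) ∧ C.hv (C.r d) ≠ C.hv (C.p d) ∧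
      C.hv (C.r d) ≠ C.hv (C.r (C.p d)) := by
  have := C.disj (C.p d) ((C.mu_p_pos d).2 h)
  rw [C.n_p] at this
  exact ⟨this.1.symm, this.2.2.1.symm, this.2.1.symm, this.2.2.2.symm⟩

theorem ed_n_ne (d : D) (h : 0 < C.mu d) : C.ed (C.n d) ≠ C.ed d := by
  intro he
  have := C.disj d h
  rcases C.hv_ed _ _ he with h1 | h1
  · exact this.1 h1.symm
  · exact this.2.2.1 h1.symm

/-- the fan at the edge of a dart with two crossing ends -/
theorem fan (d : D) (h : 0 < C.mu d) (h' : 0 < C.mu (C.r d)) :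
    (C.ap d → C.hv (C.n d) = C.hv (C.r (C.p d))) ∧
      (¬ C.ap d → C.hv (C.r (C.n d)) = C.hv (C.p d)) := by
  have hm := C.mu_bk d h'
  have he := C.ed_bk d h'
  have hh := C.hv_bk d h'
  constructor
  · intro ha
    have := C.fan_l d (C.bk d) ha h (by omega) he.symm hh.symm
    rwa [C.n_bk d h'] at this
  · intro ha
    have := C.fan_r d (C.bk d) ha h (by omega) he.symm hh.symm
    rwa [C.n_bk d h', C.r_r] at this

/-! ### The mirror image -/

/-- the mirror image -/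
def mirror : Core D E V where
  r := C.r
  n d := C.r (C.p (C.r d))
  p d := C.r (C.n (C.r d))
  ed := C.ed
  hv := C.hv
  mu := C.mu
  ap d := ¬ C.ap d
  sg d := C.sg (C.r d)
  r_r := C.r_r
  n_p := by simp
  p_n := by simp
  ed_r := C.ed_r
  hv_r := C.hv_r
  hv_ed := C.hv_ed
  ext := C.ext
  mu_ed := C.mu_ed
  real_mu d := by
    rw [C.r_r, C.mu_p, C.r_r]
  real_hv d h := by
    rw [C.r_r, C.hv_p _ (by rwa [C.r_r]), C.r_r]
  st_mu d h := by
    have := C.st_eq_rt d h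
    unfold rt at this
    rw [this]
    exact C.mu_st d h
  st_ed d h := by
    have := C.st_eq_rt d h
    unfold rt at this
    rw [this]
    exact C.ed_st d h
  st_hv d h := by
    have := C.st_eq_rt d h
    unfold rt at this
    rw [this]
    exact C.hv_st d h
  turn d h := by
    have h1 := C.st_eq_rt d h
    unfold rt at h1
    rw [h1]
    have h2 := C.st_eq_rt (C.r (C.st d)) (by rw [C.mu_r_st d h]; omega)
    rw [C.st_r_st d h] at h2
    unfold rt at h2
    rw [← h2]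
  disj d h := by
    have h1 := C.disj d h
    have h2 := C.hv_rt d h
    have h3 := C.hv_r_rt d h
    unfold rt at h2 h3
    rw [h2, h3]
    exact ⟨h1.2.1, h1.1, h1.2.2.2, h1.2.2.1⟩
  once d d' h h' h1 h2 h3 := by
    refine C.once d d' h h' h1 h2 ?_
    have h4 := C.ed_rt d h
    have h5 := C.ed_rt d' h'
    unfold rt at h4 h5
    rw [← h4, ← h5, h3]
  ap_r d := by rw [C.ap_r]
  ap_ed d d' h h' := by rw [C.ap_ed d d' h h']
  fan_l d d' h h1 h2 h3 h4 := by
    have h5 := C.hv_rt d h1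
    have h6 := C.hv_rt d' h2
    unfold rt at h5 h6
    rw [h5, h6]
    exact C.fan_r d d' h h1 h2 h3 h4
  fan_r d d' h h1 h2 h3 h4 := by
    have h5 := C.hv_r_rt d h1
    have h6 := C.hv_r_rt d' h2
    unfold rt at h5 h6
    rw [h5, h6]
    exact C.fan_l d d' (by simpa using h) h1 h2 h3 h4
  sg_n d := by rw [C.r_r, C.sg_p]
  vert Q d d' h h' hh hs hQ := by
    -- the mirrored successor is the inverse: use the complement
    by_contra hc
    refine (C.vert (fun x => ¬ Q x) d' d h' h hh.symm ?_ hc) hQ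
    intro x hx hx' hq hq'
    apply hq
    have h1 : C.mu (C.r (C.n (C.r x))) = 0 := (C.real_mu (C.r x)).1 hx
    have h2 : C.hv (C.r (C.n (C.r x))) = C.hv (C.r d) := by
      rw [C.real_hv (C.r x) hx, hx', hh]
    have h3 := hs (C.n (C.r x)) h1 h2 hq'
    simpa using h3
  lensA d d' h h1 h2 := by
    obtain ⟨A, hA, hA'⟩ := C.lensA d d' h h1 h2
    refine ⟨fun x => A (C.r x), fun x => ?_, fun x => ?_⟩
    · simp only [C.r_r]
      rw [← hA (C.p (C.r x)), C.n_p]
    · have := hA' (C.r x)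
      simpa using this
  lensS d d' h h1 h2 S hS hsg hf := by
    obtain ⟨x, hx, hx1, hx2, hx3⟩ := C.lensS d d' h h1 h2 (fun x => S (C.r x))
      (fun x => by
        have := hS (C.r (C.n x))
        simp only [C.r_r, C.p_n] at this
        exact this.symm)
      (fun x hx => by simpa using hsg _ hx)
      (fun x => by
        have := hf (C.r x)
        simpa using this)
    -- go to the edge end before
    refine ⟨C.r (C.p x), ?_, ?_, ?_, ?_⟩
    · have := hS (C.r x)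
      simp only [C.r_r] at this
      exact this.2 hx
    · rw [C.r_r, C.mu_p, hx1]
    · rw [C.r_r, C.hv_p _ hx1]
      exact hx2
    · rw [C.r_r, C.hv_p _ hx1]
      exact hx3
  nodeg d h := by
    obtain ⟨h1, h2, h3⟩ := h
    simp only [C.r_r] at h3
    have h4 : C.p (C.r d) = d := C.r_inj h2
    refine C.nodeg d ⟨?_, ?_, ?_⟩
    · rw [← h4, C.sg_p]
      exact h1
    · rw [← h4, C.n_p, h4]
    · have h5 : C.p d = C.r d := by
        rw [← C.r_r (C.p d), h3]
      rw [← h5, C.n_p]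

@[simp] theorem mirror_r (d : D) : C.mirror.r d = C.r d := rfl
@[simp] theorem mirror_n (d : D) : C.mirror.n d = C.r (C.p (C.r d)) := rfl
@[simp] theorem mirror_p (d : D) : C.mirror.p d = C.r (C.n (C.r d)) := rfl
@[simp] theorem mirror_ed (d : D) : C.mirror.ed d = C.ed d := rfl
@[simp] theorem mirror_hv (d : D) : C.mirror.hv d = C.hv d := rfl
@[simp] theorem mirror_mu (d : D) : C.mirror.mu d = C.mu d := rfl
@[simp] theorem mirror_ap (d : D) : C.mirror.ap d ↔ ¬ C.ap d := Iff.rfl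
@[simp] theorem mirror_sg (d : D) : C.mirror.sg d ↔ C.sg (C.r d) := Iff.rfl

end Core

end Pool.Agent.Q238.FP
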