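import Mathlib

/-!
# Fan-planar drawings of multigraphs

A drawing of a multigraph on the sphere (equivalently: in the plane) is given by its planarization:
for each edge the crossing points along it, at each crossing point the side from which the other edge
comes, at each vertex the cyclic order of the edge ends, and the faces.
-/

set_option autoImplicit false

namespace Pool.Agent.Q238.FP

/-- The combinatorial data of a drawing of the multigraph with vertex set `V` and edge set `E`. -/
structure Data (V E : Type) where
  /-- the first (`false`) and the last (`true`) vertex of an edge -/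
  vert : E × Bool → V
  /-- the number of crossing points on an edge; they are numbered `0, 1, …` from the first vertex
  to the last -/
  len : E → ℕ
  /-- the crossing point number `i` of `e` is the crossing point number `j` of `e'` -/
  cr : (Σ e, Fin (len e)) → (Σ e, Fin (len e))
  /-- the other edge passes from the right to the left of `e` -/
  toLeft : (Σ e, Fin (len e)) → Bool
  /-- the next edge end at the same vertex, clockwise -/
  rot : Equiv.Perm (E × Bool)
  cr_cr : ∀ x, cr (cr x) = x
  toLeft_cr : ∀ x, toLeft (cr x) = !toLeft x
  rot_vert : ∀ x y, rot.SameCycle x y ↔ vert x = vert y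

namespace Data

variable {V E : Type} (G : Data V E)

/-- The darts: the edge `e` is cut by its crossing points into the segments `0, …, len e`, and each
segment has two directions (`true`: from the first vertex to the last). -/
abbrev Dart : Type := (Σ e, Fin (G.len e + 1)) × Bool

/-- the same segment in the other direction -/
def rev (d : G.Dart) : G.Dart := (d.1, !d.2)

/-- the dart which leaves the vertex `vert x` along the edge end `x` -/
def out (x : E × Bool) : G.Dart := (⟨x.1, if x.2 then Fin.last _ else 0⟩, !x.2)

/-- The dart which leaves a crossing point `x` of the edge `x.1` along this edge (`b = true`: in the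
direction to the last vertex). -/
def leave (x : Σ e, Fin (G.len e)) (b : Bool) : G.Dart :=
  (⟨x.1, if b then x.2.succ else x.2.castSucc⟩, b)

/-- The next dart on the boundary of the face on the left of `d`. If `d` ends at a crossing point, we
turn to the left into the other edge; if `d` ends at a vertex, we go on with the next edge end. -/
def next (d : G.Dart) : G.Dart :=
  match d with
  | (⟨e, i⟩, true) =>
    if h : (i : ℕ) < G.len e then G.leave (G.cr ⟨e, ⟨i, h⟩⟩) (G.toLeft ⟨e, ⟨i, h⟩⟩)
    else G.out (G.rot (e, true))
  | (⟨e, i⟩, false) =>
    if h : 0 < (i : ℕ) then
      G.leave (G.cr ⟨e, ⟨i - 1, by omega⟩⟩) (!G.toLeft ⟨e, ⟨i - 1, by omega⟩⟩)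
    else G.out (G.rot (e, false))

/-- boundary walks: the orbits of `next` -/
abbrev Walk : Type := Quot fun d d' : G.Dart => G.next d = d'

/-- the connected components of the planarization which contain an edge -/
abbrev Comp : Type := Quot fun d d' : G.Dart => G.next d = d' ∨ G.rev d = d'

/-- the isolated vertices -/
abbrev Iso : Type := {v : V // ∀ x, G.vert x ≠ v}

/-- The end, on the left side of `x.1`, of the edge which crosses `x.1` in the crossing point `x`. -/
def leftEnd (x : Σ e, Fin (G.len e)) : V := G.vert ((G.cr x).1, G.toLeft x)

/-- The end, on the right side of `x.1`, of the edge which crosses `x.1` in the crossing point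
`x`. -/
def rightEnd (x : Σ e, Fin (G.len e)) : V := G.vert ((G.cr x).1, !G.toLeft x)

/-- no loops -/
def Loopless : Prop := ∀ e, G.vert (e, false) ≠ G.vert (e, true)

/-- The drawing is simple: crossing edges have no common endpoint, and two edges cross at most
once. -/
def Simple : Prop :=
  (∀ (x : Σ e, Fin (G.len e)) (b b' : Bool), G.vert (x.1, b) ≠ G.vert ((G.cr x).1, b')) ∧
  ∀ x y : Σ e, Fin (G.len e), x.1 = y.1 → (G.cr x).1 = (G.cr y).1 → x = y

/-- For every edge `e`, all edges which cross `e` have a common end `w`, which is reached on the
same side of `e` for all of them. -/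
def FanPlanar : Prop :=
  ∀ e, (∃ w, ∀ i, G.leftEnd ⟨e, i⟩ = w) ∨ ∃ w, ∀ i, G.rightEnd ⟨e, i⟩ = w

end Data

/-- A drawing on the sphere of the multigraph with vertex set `V` and edge set `E`, with set of
faces `F`. -/
structure Drawing (V E F : Type) extends Data V E where
  /-- the face on the left of a dart -/
  face : toData.Dart → F
  /-- a face incident to the vertex -/
  loc : V → F
  face_next : ∀ d, face (toData.next d) = face d
  face_loc : ∀ x, ∃ y, vert y = vert x ∧ face (toData.out y) = loc (vert x)
  /-- every face has an edge or an isolated vertex on its boundary -/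
  face_surj : ∀ f, (∃ d, face d = f) ∨ ∃ v : toData.Iso, loc v.1 = f
  /-- Euler's formula for each component of the planarization, added up, and doubled. The number
  of crossing points is half the sum of the numbers `len e`, the number of segments is the sum of
  the numbers `len e + 1`, and each component has one face per boundary walk. -/
  euler : 2 * Nat.card V + Nat.card (Σ e, Fin (len e)) +
      2 * (Nat.card toData.Walk + Nat.card toData.Iso) =
    2 * Nat.card (Σ e, Fin (len e + 1)) + 4 * (Nat.card toData.Comp + Nat.card toData.Iso)
  /-- the components fit together: each further component merges two faces -/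
  card_face : Nat.card F + (Nat.card toData.Comp + Nat.card toData.Iso) =
    Nat.card toData.Walk + Nat.card toData.Iso + 1
  /-- the sphere is connected -/
  conn : ∀ A : Set F, (∀ d, face d ∈ A ↔ face (toData.rev d) ∈ A) → A = ∅ ∨ A = Set.univ

namespace Drawing

variable {V E F : Type} (G : Drawing V E F)

/-- The set `A` of faces is one of the two regions into which the closed curve formed by the edges
`e` and `e'` cuts the sphere. -/
def Region (e e' : E) (A : Set F) : Prop :=
  ∀ d : G.Dart, (G.face d ∈ A ↔ G.face (G.rev d) ∈ A) ↔ d.1.1 ≠ e ∧ d.1.1 ≠ e'

/-- Every pair of parallel edges is non-homotopic: both regions of the closed curve formed by the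
two edges contain a vertex. -/
def NonHomotopic : Prop :=
  ∀ e e' : E, e ≠ e' → ({G.vert (e, false), G.vert (e, true)} : Set V) =
      {G.vert (e', false), G.vert (e', true)} →
    ∃ A, G.Region e e' A ∧
      (∃ v, v ≠ G.vert (e, false) ∧ v ≠ G.vert (e, true) ∧ G.loc v ∈ A) ∧
      ∃ v, v ≠ G.vert (e, false) ∧ v ≠ G.vert (e, true) ∧ G.loc v ∉ A

end Drawing

end Pool.Agent.Q238.FP
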