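import Pool.Agent.Q238.FP.Mk

/-!
# The upper bound
-/

set_option autoImplicit false

namespace Pool.Agent.Q238.FP.Core

open Classical in
theorem main' {D E V : Type} (C : Core D E V) [Fintype D] [Fintype C.Orb] (Q : C.Orb → Prop)
    (hQ : ∀ d : D, Q (Quot.mk _ d) → C.sg d) :
    20 * (Finset.univ.filter Q).card ≤
      8 * (Finset.univ.filter (fun x => C.mu (C.r x) = 0)).card +
        5 * (Finset.univ.filter (fun x => ¬ C.mu (C.r x) = 0)).card := by
  refine le_trans (Nat.mul_le_mul_left 20 (Finset.card_le_card ?_)) C.main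
  intro w hw
  rw [Finset.mem_filter] at hw ⊢
  refine ⟨hw.1, ?_⟩
  obtain ⟨-, hw⟩ := hw
  induction w using Quot.ind with
  | mk d => exact hQ d hw

end Pool.Agent.Q238.FP.Core

namespace Pool.Agent.Q238.FP.Drawing

variable {V E F : Type} (G : Drawing V E F)

open Classical in
theorem card_real [Fintype E] [Fintype G.Dart] :
    (Finset.univ.filter (fun d : G.Dart => G.mu (G.rev d) = 0)).card = 2 * Fintype.card E := by
  have h1 : (Finset.univ.filter (fun d : G.Dart => G.mu (G.rev d) = 0)) =
      (Finset.univ : Finset (E × Bool)).image G.out := by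
    ext d
    simp only [Finset.mem_filter, Finset.mem_univ, true_and, Finset.mem_image]
    constructor
    · intro h
      obtain ⟨x, hx⟩ := G.exists_out _ h
      exact ⟨x, (G.rev_inj hx).symm⟩
    · rintro ⟨x, rfl⟩
      exact G.mu_rev_out x
  rw [h1, Finset.card_image_of_injective _ (fun x y h => G.out_inj h), Finset.card_univ,
    Fintype.card_prod, Fintype.card_bool, Nat.mul_comm]

theorem card_seg [Fintype E] : Nat.card (Σ e, Fin (G.len e + 1)) =
    Nat.card (Σ e, Fin (G.len e)) + Fintype.card E := by
  rw [Nat.card_eq_fintype_card, Nat.card_eq_fintype_card, Fintype.card_sigma, Fintype.card_sigma]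
  simp only [Fintype.card_fin]
  rw [Finset.sum_add_distrib, Finset.sum_const, smul_eq_mul, mul_one, Finset.card_univ]

theorem card_dart [Fintype E] [Fintype G.Dart] : Fintype.card G.Dart =
    2 * Nat.card (Σ e, Fin (G.len e + 1)) := by
  rw [← Nat.card_eq_fintype_card, Nat.card_prod, Nat.card_eq_fintype_card (α := Bool),
    Fintype.card_bool, Nat.mul_comm]

/-- the face of a walk or of an isolated vertex -/
def wf : G.Walk ⊕ G.Iso → F
  | Sum.inl w => Quot.lift G.face (fun a b (h : G.next a = b) => by rw [← h, G.face_next]) w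
  | Sum.inr v => G.loc v.1

theorem wf_surj (f : F) : ∃ x, G.wf x = f := by
  rcases G.face_surj f with ⟨d, hd⟩ | ⟨v, hv⟩
  · exact ⟨Sum.inl (Quot.mk _ d), hd⟩
  · exact ⟨Sum.inr v, hv⟩

/-- simply bounded walks -/
def SgW (w : G.Walk) : Prop :=
  (∀ w', G.wf (Sum.inl w') = G.wf (Sum.inl w) → w' = w) ∧
    ∀ v, G.wf (Sum.inr v) ≠ G.wf (Sum.inl w)

theorem sgW_mk (d : G.Dart) : G.SgW (Quot.mk _ d) ↔ G.Sg d := by
  constructor
  · rintro ⟨h1, h2⟩
    exact ⟨fun d' hd' => h1 (Quot.mk _ d') hd', h2⟩
  · rintro ⟨h1, h2⟩
    refine ⟨fun w' hw' => ?_, h2⟩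
    induction w' using Quot.ind with
    | mk d' => exact h1 d' hw'

open Classical in
/-- Most faces are simply bounded. -/
theorem faces [Finite E] [Nonempty E] [Fintype F] [Fintype G.Walk] [Fintype G.Iso] :
    2 * Fintype.card F ≤ (Finset.univ.filter G.SgW).card +
      (Fintype.card G.Walk + Fintype.card G.Iso) := by
  -- number of walks and isolated vertices of a face
  have h1 : Fintype.card G.Walk + Fintype.card G.Iso =
      ∑ f : F, (Finset.univ.filter (fun x => G.wf x = f)).card := by
    rw [← Fintype.card_sum, ← Finset.card_univ]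
    exact Finset.card_eq_sum_card_fiberwise (fun _ _ => Finset.mem_univ _)
  have h2 : (Finset.univ.filter G.SgW).card =
      ∑ f : F, ((Finset.univ.filter G.SgW).filter (fun w => G.wf (Sum.inl w) = f)).card :=
    Finset.card_eq_sum_card_fiberwise (fun _ _ => Finset.mem_univ _)
  rw [h1, h2, ← Finset.sum_add_distrib]
  have h3 : 2 * Fintype.card F = ∑ f : F, 2 := by
    rw [Finset.sum_const, Finset.card_univ, smul_eq_mul, Nat.mul_comm]
  rw [h3]
  apply Finset.sum_le_sum
  intro f _
  by_cases hc : 2 ≤ (Finset.univ.filter (fun x => G.wf x = f)).card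
  · omega
  · have hpos : 0 < (Finset.univ.filter (fun x => G.wf x = f)).card := by
      obtain ⟨x, hx⟩ := G.wf_surj f
      exact Finset.card_pos.2 ⟨x, by simpa using hx⟩
    have hone : (Finset.univ.filter (fun x => G.wf x = f)).card = 1 := by omega
    obtain ⟨x, hx⟩ := Finset.card_eq_one.1 hone
    have hmem : ∀ y, G.wf y = f ↔ y = x := by
      intro y
      have : y ∈ Finset.univ.filter (fun x => G.wf x = f) ↔ y ∈ ({x} : Finset _) := by rw [hx]
      simpa using this
    cases x with
    | inl w =>
      have hw : G.wf (Sum.inl w) = f := (hmem _).2 rfl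
      have : 0 < ((Finset.univ.filter G.SgW).filter (fun w => G.wf (Sum.inl w) = f)).card := by
        refine Finset.card_pos.2 ⟨w, ?_⟩
        simp only [Finset.mem_filter, Finset.mem_univ, true_and]
        refine ⟨⟨fun w' hw' => ?_, fun v hv => ?_⟩, hw⟩
        · have := (hmem (Sum.inl w')).1 (by rw [hw', hw])
          exact Sum.inl_injective this
        · have := (hmem (Sum.inr v)).1 (by rw [hv, hw])
          exact absurd this (by simp)
      omega
    | inr v =>
      exfalso
      have hv : G.wf (Sum.inr v) = f := (hmem _).2 rfl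
      have hno : ∀ d, G.face d ≠ f := by
        intro d hd
        have := (hmem (Sum.inl (Quot.mk _ d))).1 hd
        exact absurd this (by simp)
      rcases G.conn {f} (fun d => by
        simp only [Set.mem_singleton_iff]
        exact ⟨fun h => absurd h (hno _), fun h => absurd h (hno _)⟩) with hA | hA
      · exact absurd (Set.mem_singleton f) (by rw [hA]; exact fun h => h)
      · obtain ⟨e⟩ := ‹Nonempty E›
        have : G.face (⟨e, 0⟩, true) ∈ ({f} : Set F) := by rw [hA]; exact Set.mem_univ _
        exact hno _ this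

open Classical in
theorem star [Finite E] [iD : Fintype G.Dart] [iW : Fintype G.Walk] (hl : G.Loopless)
    (hs : G.Simple) (hf : G.FanPlanar) (hh : G.NonHomotopic) (h3 : ∀ a b : V, ∃ c, c ≠ a ∧ c ≠ b) :
    20 * (Finset.univ.filter G.SgW).card ≤
      8 * (Finset.univ.filter (fun x : G.Dart => G.mu (G.rev x) = 0)).card +
        5 * (Finset.univ.filter (fun x : G.Dart => ¬ G.mu (G.rev x) = 0)).card := by
  exact @Core.main' _ _ _ (G.toCore hl hs hf hh h3) iD iW G.SgW (fun d => (G.sgW_mk d).1)

open Classical in
/-- **The upper bound.** -/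
theorem card_edges_le [Fintype V] [Fintype E] [Finite F] (hl : G.Loopless) (hs : G.Simple)
    (hf : G.FanPlanar) (hh : G.NonHomotopic) (h3 : 3 ≤ Fintype.card V) :
    Fintype.card E + 10 ≤ 5 * Fintype.card V := by
  rcases isEmpty_or_nonempty E with hE | hE
  · rw [Fintype.card_eq_zero]
    omega
  have h3' : ∀ a b : V, ∃ c, c ≠ a ∧ c ≠ b := by
    intro a b
    by_contra hc
    push Not at hc
    have : (Finset.univ : Finset V) ⊆ {a, b} := by
      intro c _
      simp only [Finset.mem_insert, Finset.mem_singleton]
      by_cases hca : c = a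
      · exact Or.inl hca
      · exact Or.inr (hc c hca)
    have h4 := Finset.card_le_card this
    have h5 := Finset.card_le_two (a := a) (b := b)
    rw [Finset.card_univ] at h4
    omega
  have iF : Fintype F := Fintype.ofFinite F
  have iD : Fintype G.Dart := Fintype.ofFinite _
  have iW : Fintype G.Walk := Fintype.ofFinite _
  have iI : Fintype G.Iso := Fintype.ofFinite _
  have m := G.star hl hs hf hh h3'
  have e1 := G.card_real
  have e2 : (Finset.univ.filter (fun x : G.Dart => G.mu (G.rev x) = 0)).card +
      (Finset.univ.filter (fun x : G.Dart => ¬ G.mu (G.rev x) = 0)).card = Fintype.card G.Dart := by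
    rw [Finset.card_filter_add_card_filter_not, Finset.card_univ]
  have e4 := G.card_dart
  have e5 := G.card_seg
  have e6 := G.faces
  have e7 := G.euler
  have e8 := G.card_face
  rw [Nat.card_eq_fintype_card (α := G.Walk), Nat.card_eq_fintype_card (α := G.Iso)] at e7 e8
  rw [Nat.card_eq_fintype_card (α := V)] at e7
  rw [Nat.card_eq_fintype_card (α := F)] at e8
  omega

end Pool.Agent.Q238.FP.Drawing
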