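import Pool.Agent.Q238.FP.Orbit

/-!
# Where the two sides of a triangle are paid
-/

set_option autoImplicit false

namespace Pool.Agent.Q238.FP.Core

variable {D E V : Type} (C : Core D E V)

/-- an inner side of a big cell whose strip leads to a big cell -/
def B0 (d : D) : Prop := C.Big d ∧ C.Big (C.far d)

/-- the side pays for the triangle at the next side of its cell -/
def Wt (a : D) : Prop := C.ap a ∧ C.Tri (C.far (C.n a)) ∧ ¬ C.par (C.n a) (C.p a)

def WHit (b : D) : Prop :=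
  (∃ x, C.XR x ∧ ¬ C.ap x ∧ C.Tri (C.p x) ∧ C.p x = b) ∨
  (∃ x, C.XR x ∧ ¬ C.ap x ∧ ¬ C.Tri (C.p x) ∧ C.far (C.n (C.r x)) = b) ∨
  (∃ a, C.B0 a ∧ C.Wt a ∧ C.far (C.n a) = b) ∨
  (∃ t, C.DW t ∧ C.ap (C.p t) ∧ C.far t = b) ∨
  ∃ t, C.DW t ∧ ¬ C.ap (C.p t) ∧ C.far (C.n (C.r (C.n (C.far t)))) = b

theorem Tri.whit {b : D} (hb : C.Tri b) : C.WHit b := by
  have hx := hb.2.2.1
  set t := C.far b with ht
  have hT : C.T t := ⟨b, hb, rfl⟩
  have hft : C.far t = b := C.far_far hb.not_sq
  have htx := hT.xx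
  have ha0 : 0 < C.mu (C.p t) := (C.mu_p_pos t).2 htx.2
  by_cases ha : C.ap (C.p t)
  swap
  · left
    refine ⟨C.n b, ⟨hb.2.2.2, (C.mu_rn_pos b).2 hx.1⟩, ?_, by rwa [C.p_n], C.p_n b⟩
    rwa [C.ap_ed (C.n b) (C.p t) (C.far_ed_p hx).symm (C.far_hv_p hx).symm]
  rcases Nat.eq_zero_or_pos (C.mu (C.r (C.p t))) with h0 | h0
  · by_cases hT2 : C.Tri (C.p (C.r (C.p t)))
    · rcases C.V2 hT hT2 with hp | hp
      · right; right; right; left
        exact ⟨t, ⟨hT, Or.inr ⟨htx, (C.par_comm _ _).1 hp⟩⟩, ha, hft⟩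
      · right; right; right; right
        set b2 := C.p (C.r (C.p t)) with hb2
        have hnb : C.n b2 = C.r (C.p t) := by rw [hb2, C.n_p]
        have hx2 := hT2.2.2.1
        have hP2 : C.P (C.far b2) := by
          refine ⟨C.far_xx hx2, ?_⟩
          have h1 := C.far_hv_p hx2
          have h2 := C.far_hv_rp hx2
          have h3 := C.far_hv_n hx2
          have h4 := C.far_hv_rn hx2
          rw [hnb] at h1 h2
          rw [C.r_r] at h2
          unfold par
          rw [h1, h2, h3, h4]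
          rcases hp with h5 | h5
          · exact Or.inr ⟨h5.2.symm, h5.1.symm⟩
          · exact Or.inl ⟨h5.1.symm, h5.2.symm⟩
        refine ⟨C.far b2, ⟨⟨b2, hT2, rfl⟩, Or.inr hP2⟩, ?_, ?_⟩
        · rw [C.ap_ed _ _ (C.far_ed_p hx2) (C.far_hv_p hx2), hnb, C.ap_r]
          exact not_not.2 ha
        · rw [C.far_far hT2.not_sq, hnb, C.r_r, C.n_p, hft]
    · right; left
      refine ⟨C.r (C.p t), ⟨h0, by rwa [C.r_r]⟩, ?_, hT2, ?_⟩
      · rw [C.ap_r]
        exact not_not.2 ha
      · rw [C.r_r, C.n_p, hft]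
  · by_cases hp : C.par (C.n (C.p t)) (C.p (C.p t))
    · right; right; right; left
      refine ⟨t, ⟨hT, Or.inl ⟨⟨ha0, h0⟩, (C.par_comm _ _).1 hp⟩⟩, ha, hft⟩
    · right; right; left
      have hsq : ¬ C.Sq (C.p t) := fun h => absurd ((C.sq_p t).1 h) hT.not_sq
      refine ⟨C.p t, ⟨⟨⟨ha0, h0⟩, ?_, hsq⟩, C.far_xx ⟨ha0, h0⟩, ?_, C.not_sq_far _⟩,
        ⟨ha, ?_, hp⟩, ?_⟩
      · intro h
        have h1 := h.2.2.2
        rw [C.n_p] at h1
        have := htx.1
        omega
      · exact fun h => hp (C.V1 ⟨ha0, h0⟩ hsq h ha)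
      · rw [C.n_p, hft]
        exact hb
      · rw [C.n_p, hft]

def EHit (b : D) : Prop :=
  (∃ x, C.XR x ∧ C.ap x ∧ C.Tri (C.n (C.r x)) ∧ C.n (C.r x) = b) ∨
  (∃ x, C.XR x ∧ C.ap x ∧ ¬ C.Tri (C.n (C.r x)) ∧ C.far (C.p x) = b) ∨
  (∃ a, C.B0 a ∧ (C.ap a ∧ ¬ C.par (C.n a) (C.p a)) ∧ C.far (C.p a) = b) ∨
  (∃ t, C.DE t ∧ C.ap (C.n t) ∧ C.far t = b) ∨
  ∃ t, C.DE t ∧ ¬ C.ap (C.n t) ∧ C.far (C.p (C.r (C.p (C.far t)))) = b

theorem mirror_DW (t : D) : C.mirror.DW (C.r t) ↔ C.DE t := by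
  unfold DW DE
  rw [C.mirror_T, mirror_p_r, C.mirror_P, C.mirror_P]

theorem mirror_B0 (t : D) : C.mirror.B0 (C.r t) ↔ C.B0 t := by
  unfold B0
  rw [C.mirror_far, C.mirror_big, C.mirror_big]

theorem Tri.ehit {b : D} (hb : C.Tri b) : C.EHit b := by
  have h := Tri.whit C.mirror ((C.mirror_tri b).2 hb)
  rcases h with ⟨x, h1, h2, h3, h4⟩ | ⟨x, h1, h2, h3, h4⟩ | ⟨x, h1, h2, h4⟩ | ⟨x, h1, h2, h3⟩ |
    ⟨x, h1, h2, h3⟩
  · left
    rw [mirror_p] at h3 h4
    rw [C.mirror_tri] at h3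
    exact ⟨x, h1, not_not.1 h2, h3, C.r_inj h4⟩
  · right; left
    rw [mirror_p, C.mirror_tri] at h3
    refine ⟨x, h1, not_not.1 h2, h3, ?_⟩
    rw [mirror_r, mirror_n, C.r_r, C.mirror_far] at h4
    exact C.r_inj h4
  · right; right; left
    obtain ⟨y, rfl⟩ : ∃ y, x = C.r y := ⟨C.r x, (C.r_r x).symm⟩
    rw [C.mirror_B0] at h1
    obtain ⟨h5, -, h6⟩ := h2
    rw [mirror_ap, C.ap_r, not_not] at h5
    rw [mirror_n_r, mirror_p_r, C.mirror_par, C.par_r_left, C.par_r_right, C.par_comm] at h6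
    rw [mirror_n_r, C.mirror_far] at h4
    exact ⟨y, h1, ⟨h5, h6⟩, C.r_inj h4⟩
  · right; right; right; left
    obtain ⟨y, rfl⟩ : ∃ y, x = C.r y := ⟨C.r x, (C.r_r x).symm⟩
    rw [C.mirror_DW] at h1
    rw [mirror_p_r, mirror_ap, C.ap_r, not_not] at h2
    rw [C.mirror_far] at h3
    exact ⟨y, h1, h2, C.r_inj h3⟩
  · right; right; right; right
    obtain ⟨y, rfl⟩ : ∃ y, x = C.r y := ⟨C.r x, (C.r_r x).symm⟩
    rw [C.mirror_DW] at h1
    rw [mirror_p_r, mirror_ap, C.ap_r, not_not] at h2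
    rw [C.mirror_far, mirror_n_r, mirror_r, C.r_r, mirror_n, C.mirror_far] at h3
    exact ⟨y, h1, h2, C.r_inj h3⟩

/-- no double payment -/
theorem not_Wt_far {x : D} (hx : C.Big x) (hw : C.Wt x) (h : C.ap (C.far x)) : False := by
  have h1 := (C.fan x hx.1.1 hx.1.2).1 hw.1
  have hf := C.far_xx hx.1
  have h2 := (C.fan _ hf.1 hf.2).1 h
  rw [C.far_hv_n hx.1, C.far_hv_rp hx.1] at h2
  exact hw.2.2 (Or.inr ⟨h1, h2.symm⟩)

open Classical in
/-- **The injection.** -/
theorem two_mul_tri [Fintype D] :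
    2 * (Finset.univ.filter C.Tri).card ≤ (Finset.univ.filter C.XR).card +
      (Finset.univ.filter C.B0).card + (Finset.univ.filter C.DW).card +
      (Finset.univ.filter C.DE).card := by
  let g1 : D → D × Bool := fun x =>
    if C.ap x then (if C.Tri (C.n (C.r x)) then (C.n (C.r x), true) else (C.far (C.p x), true))
    else (if C.Tri (C.p x) then (C.p x, false) else (C.far (C.n (C.r x)), false))
  let g2 : D → D × Bool := fun a =>
    if C.Wt a then (C.far (C.n a), false) else (C.far (C.p (C.far a)), true)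
  let g3 : D → D × Bool := fun t =>
    if C.ap (C.p t) then (C.far t, false) else (C.far (C.n (C.r (C.n (C.far t)))), false)
  let g4 : D → D × Bool := fun t =>
    if C.ap (C.n t) then (C.far t, true) else (C.far (C.p (C.r (C.p (C.far t)))), true)
  have hsub : (Finset.univ.filter C.Tri) ×ˢ (Finset.univ : Finset Bool) ⊆
      (((Finset.univ.filter C.XR).image g1 ∪ (Finset.univ.filter C.B0).image g2) ∪
        (Finset.univ.filter C.DW).image g3) ∪ (Finset.univ.filter C.DE).image g4 := by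
    rintro ⟨b, s⟩ hb
    simp only [Finset.mem_product, Finset.mem_filter, Finset.mem_univ, true_and, and_true] at hb
    simp only [Finset.mem_union, Finset.mem_image, Finset.mem_filter, Finset.mem_univ, true_and]
    cases s with
    | false =>
      rcases hb.whit with ⟨x, h1, h2, h3, h4⟩ | ⟨x, h1, h2, h3, h4⟩ | ⟨x, h1, h2, h4⟩ |
        ⟨x, h1, h2, h3⟩ | ⟨x, h1, h2, h3⟩
      · refine Or.inl (Or.inl (Or.inl ⟨x, h1, ?_⟩))
        simp only [g1]
        rw [if_neg h2, if_pos h3, h4]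
      · refine Or.inl (Or.inl (Or.inl ⟨x, h1, ?_⟩))
        simp only [g1]
        rw [if_neg h2, if_neg h3, h4]
      · refine Or.inl (Or.inl (Or.inr ⟨x, h1, ?_⟩))
        simp only [g2]
        rw [if_pos h2, h4]
      · refine Or.inl (Or.inr ⟨x, h1, ?_⟩)
        simp only [g3]
        rw [if_pos h2, h3]
      · refine Or.inl (Or.inr ⟨x, h1, ?_⟩)
        simp only [g3]
        rw [if_neg h2, h3]
    | true =>
      rcases hb.ehit with ⟨x, h1, h2, h3, h4⟩ | ⟨x, h1, h2, h3, h4⟩ | ⟨x, h1, h2, h4⟩ |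
        ⟨x, h1, h2, h3⟩ | ⟨x, h1, h2, h3⟩
      · refine Or.inl (Or.inl (Or.inl ⟨x, h1, ?_⟩))
        simp only [g1]
        rw [if_pos h2, if_pos h3, h4]
      · refine Or.inl (Or.inl (Or.inl ⟨x, h1, ?_⟩))
        simp only [g1]
        rw [if_pos h2, if_neg h3, h4]
      · refine Or.inl (Or.inl (Or.inr ⟨C.far x, ⟨h1.2, ?_⟩, ?_⟩))
        · rw [C.far_far h1.1.2.2]
          exact h1.1
        · simp only [g2]
          rw [if_neg, C.far_far h1.1.2.2, h4]
          intro hw
          refine C.not_Wt_far h1.2 hw ?_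
          rw [C.far_far h1.1.2.2]
          exact h2.1
      · refine Or.inr ⟨x, h1, ?_⟩
        simp only [g4]
        rw [if_pos h2, h3]
      · refine Or.inr ⟨x, h1, ?_⟩
        simp only [g4]
        rw [if_neg h2, h3]
  have h := Finset.card_le_card hsub
  rw [Finset.card_product, Finset.card_univ, Fintype.card_bool] at h
  have u1 := Finset.card_union_le (((Finset.univ.filter C.XR).image g1 ∪
    (Finset.univ.filter C.B0).image g2) ∪ (Finset.univ.filter C.DW).image g3)
    ((Finset.univ.filter C.DE).image g4)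
  have u2 := Finset.card_union_le ((Finset.univ.filter C.XR).image g1 ∪
    (Finset.univ.filter C.B0).image g2) ((Finset.univ.filter C.DW).image g3)
  have u3 := Finset.card_union_le ((Finset.univ.filter C.XR).image g1)
    ((Finset.univ.filter C.B0).image g2)
  have i1 := Finset.card_image_le (s := Finset.univ.filter C.XR) (f := g1)
  have i2 := Finset.card_image_le (s := Finset.univ.filter C.B0) (f := g2)
  have i3 := Finset.card_image_le (s := Finset.univ.filter C.DW) (f := g3)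
  have i4 := Finset.card_image_le (s := Finset.univ.filter C.DE) (f := g4)
  omega

open Classical in
theorem card_big [Fintype D] : (Finset.univ.filter C.B0).card + (Finset.univ.filter C.Tri).card ≤
    (Finset.univ.filter C.Big).card := by
  have h1 : (Finset.univ.filter C.Tri).card = ((Finset.univ.filter C.Tri).image C.far).card := by
    rw [Finset.card_image_of_injOn]
    intro a ha b hb hab
    simp only [Finset.coe_filter, Finset.mem_univ, true_and, Set.mem_ofPred_eq] at ha hb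
    rw [← C.far_far ha.not_sq, hab, C.far_far hb.not_sq]
  rw [h1, ← Finset.card_union_of_disjoint]
  · apply Finset.card_le_card
    intro x hx
    simp only [Finset.mem_union, Finset.mem_image, Finset.mem_filter, Finset.mem_univ,
      true_and] at hx ⊢
    rcases hx with hx | ⟨b, hb, rfl⟩
    · exact hx.1
    · exact T.big C ⟨b, hb, rfl⟩
  · rw [Finset.disjoint_left]
    intro x hx hx'
    simp only [Finset.mem_image, Finset.mem_filter, Finset.mem_univ, true_and] at hx hx'
    obtain ⟨b, hb, rfl⟩ := hx'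
    have := hx.2.2.1
    rw [C.far_far hb.not_sq] at this
    exact this hb

open Classical in
theorem card_xr [Fintype D] : (Finset.univ.filter C.XR).card ≤
    (Finset.univ.filter (fun x => C.XR x ∧ ¬ C.Tri (C.p x))).card +
      (Finset.univ.filter C.Tri).card := by
  have h1 : (Finset.univ.filter (fun x => C.XR x ∧ C.Tri (C.p x))).card ≤
      (Finset.univ.filter C.Tri).card := by
    apply Finset.card_le_card_of_injOn C.p
    · intro x hx
      simp only [Finset.coe_filter, Finset.mem_univ, true_and, Set.mem_ofPred_eq] at hx ⊢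
      exact hx.2
    · intro a _ b _ hab
      exact C.p_inj hab
  have h2 : (Finset.univ.filter C.XR) ⊆
      (Finset.univ.filter (fun x => C.XR x ∧ ¬ C.Tri (C.p x))) ∪
        (Finset.univ.filter (fun x => C.XR x ∧ C.Tri (C.p x))) := by
    intro x hx
    simp only [Finset.mem_union, Finset.mem_filter, Finset.mem_univ, true_and] at hx ⊢
    tauto
  have h3 := Finset.card_le_card h2
  have h4 := Finset.card_union_le (Finset.univ.filter (fun x => C.XR x ∧ ¬ C.Tri (C.p x)))
    (Finset.univ.filter (fun x => C.XR x ∧ C.Tri (C.p x)))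
  omega

end Pool.Agent.Q238.FP.Core
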