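import Pool.Agent.Q238.FP.Hit

/-!
# The sum over all cells
-/

set_option autoImplicit false

namespace Pool.Agent.Q238.FP.Core

variable {D E V : Type} (C : Core D E V)

/-- the boundary walks -/
abbrev Orb : Type := Quot fun d d' : D => C.n d = d'

theorem exists_period [Finite D] (d : D) : ∃ k, 0 < k ∧ C.n^[k] d = d := by
  obtain ⟨i, j, hij, h⟩ := Finite.exists_ne_map_eq_of_infinite (fun i : ℕ => C.n^[i] d)
  have key : ∀ i j : ℕ, i < j → C.n^[i] d = C.n^[j] d → ∃ k, 0 < k ∧ C.n^[k] d = d := by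
    intro i j hij h
    refine ⟨j - i, by omega, ?_⟩
    apply C.iter_inj i
    rw [← Function.iterate_add_apply, show i + (j - i) = j by omega, h]
  rcases lt_or_gt_of_ne hij with h1 | h1
  · exact key i j h1 h
  · exact key j i h1 h.symm

theorem iter_mul {d : D} {k : ℕ} (h : C.n^[k] d = d) (m : ℕ) : C.n^[k * m] d = d := by
  induction m with
  | zero => rfl
  | succ m ih => rw [Nat.mul_succ, Function.iterate_add_apply, h, ih]

theorem iter_mod {d : D} {k : ℕ} (h : C.n^[k] d = d) (i : ℕ) : C.n^[i % k] d = C.n^[i] d := by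
  conv_rhs => rw [← Nat.mod_add_div i k, Function.iterate_add_apply, C.iter_mul h]

theorem mk_n (d : D) : (Quot.mk _ (C.n d) : C.Orb) = Quot.mk _ d :=
  (Quot.sound (r := fun d d' : D => C.n d = d') rfl).symm

theorem mk_iter (d : D) (i : ℕ) : (Quot.mk _ (C.n^[i] d) : C.Orb) = Quot.mk _ d := by
  induction i with
  | zero => rfl
  | succ i ih =>
    rw [Function.iterate_succ_apply', ← ih]
    exact C.mk_n _

def orbSet (x : D) : Set D := {y | ∃ i, C.n^[i] x = y}

theorem orbSet_n [Finite D] (x : D) : C.orbSet (C.n x) = C.orbSet x := by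
  ext y
  constructor
  · rintro ⟨i, hi⟩
    exact ⟨i + 1, by rw [Function.iterate_succ_apply]; exact hi⟩
  · rintro ⟨i, hi⟩
    obtain ⟨k, hk, hk'⟩ := C.exists_period x
    obtain ⟨m, rfl⟩ : ∃ m, k = m + 1 := ⟨k - 1, by omega⟩
    refine ⟨i + m, ?_⟩
    rw [← hi, ← Function.iterate_succ_apply C.n, show (i + m).succ = i + (m + 1) by omega,
      Function.iterate_add_apply, hk']

theorem mk_eq [Finite D] {d d' : D} (h : (Quot.mk _ d : C.Orb) = Quot.mk _ d') :
    ∃ i, C.n^[i] d = d' := by
  have h1 : C.orbSet d = C.orbSet d' :=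
    congrArg (Quot.lift C.orbSet (fun a b (hab : C.n a = b) => by rw [← hab, C.orbSet_n])) h
  have h2 : d' ∈ C.orbSet d' := ⟨0, rfl⟩
  rw [← h1] at h2
  exact h2

/-- simply bounded faces -/
def sgo (o : C.Orb) : Prop := Quot.lift C.sg (fun a b (hab : C.n a = b) => by
  rw [← hab]
  exact propext (C.sg_n a).symm) o

open Classical in
theorem fiber_sum [Fintype D] (d : D) : ∃ k, 0 < k ∧ C.n^[k] d = d ∧
    (∀ j, 0 < j → j < k → C.n^[j] d ≠ d) ∧
    ∑ x ∈ Finset.univ.filter (fun x => (Quot.mk _ x : C.Orb) = Quot.mk _ d), C.W x =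
      C.OS k d := by
  have hex := C.exists_period d
  set k := Nat.find hex with hk
  have hks := Nat.find_spec hex
  rw [← hk] at hks
  have hmin : ∀ j, 0 < j → j < k → C.n^[j] d ≠ d := fun j h1 h2 h3 =>
    Nat.find_min hex h2 ⟨h1, h3⟩
  refine ⟨k, hks.1, hks.2, hmin, ?_⟩
  unfold OS
  symm
  apply Finset.sum_bij (fun i _ => C.n^[i] d)
  · intro i _
    simp only [Finset.mem_filter, Finset.mem_univ, true_and]
    exact C.mk_iter d i
  · have key : ∀ i j, i < j → j < k → C.n^[i] d ≠ C.n^[j] d := by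
      intro i j h1 h2 h3
      apply hmin (j - i) (by omega) (by omega)
      apply C.iter_inj i
      rw [← Function.iterate_add_apply, show i + (j - i) = j by omega, h3]
    intro i hi j hj hij
    rw [Finset.mem_range] at hi hj
    rcases lt_trichotomy i j with h1 | h1 | h1
    · exact absurd hij (key i j h1 hj)
    · exact h1
    · exact absurd hij.symm (key j i h1 hi)
  · intro x hx
    simp only [Finset.mem_filter, Finset.mem_univ, true_and] at hx
    obtain ⟨i, hi⟩ := C.mk_eq hx.symm
    exact ⟨i % k, Finset.mem_range.2 (Nat.mod_lt _ hks.1), by rw [C.iter_mod hks.2, hi]⟩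
  · intro i _
    rfl

open Classical in
theorem sum_ge [Fintype D] [Fintype C.Orb] :
    20 * ((Finset.univ.filter C.sgo).card : ℤ) ≤ ∑ x, C.W x := by
  have h1 := Finset.sum_fiberwise (Finset.univ : Finset D) (fun x => (Quot.mk _ x : C.Orb)) C.W
  rw [← h1]
  have h2 : ∑ o ∈ Finset.univ.filter C.sgo, (20 : ℤ) ≤
      ∑ o ∈ Finset.univ.filter C.sgo, ∑ x ∈ Finset.univ.filter
        (fun x => (Quot.mk _ x : C.Orb) = o), C.W x := by
    apply Finset.sum_le_sum
    intro o ho
    simp only [Finset.mem_filter, Finset.mem_univ, true_and] at ho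
    induction o using Quot.ind with
    | mk d =>
      obtain ⟨k, hk, hk1, hk2, hk3⟩ := C.fiber_sum d
      rw [hk3]
      exact C.orbit_ge ho hk hk1 hk2
  have h3 : ∑ o ∈ Finset.univ.filter C.sgo, ∑ x ∈ Finset.univ.filter
        (fun x => (Quot.mk _ x : C.Orb) = o), C.W x ≤
      ∑ o : C.Orb, ∑ x ∈ Finset.univ.filter (fun x => (Quot.mk _ x : C.Orb) = o), C.W x := by
    apply Finset.sum_le_sum_of_subset_of_nonneg (Finset.filter_subset _ _)
    intro o _ _
    apply Finset.sum_nonneg
    intro x _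
    have := C.W_ge2 x
    linarith
  refine le_trans ?_ (le_trans h2 h3)
  rw [Finset.sum_const, nsmul_eq_mul]
  linarith

open Classical in
theorem sum_W [Fintype D] : ∑ x, C.W x =
    8 * ((Finset.univ.filter (fun x => C.mu (C.r x) = 0)).card : ℤ) +
    5 * ((Finset.univ.filter (fun x => ¬ C.mu (C.r x) = 0)).card : ℤ) +
    2 * ((Finset.univ.filter C.Tri).card : ℤ) - ((Finset.univ.filter C.Big).card : ℤ) -
    ((Finset.univ.filter (fun x => C.XR x ∧ ¬ C.Tri (C.p x))).card : ℤ) -
    ((Finset.univ.filter C.DW).card : ℤ) - ((Finset.univ.filter C.DE).card : ℤ) := by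
  unfold W
  simp only [Finset.sum_sub_distrib, Finset.sum_add_distrib]
  rw [Finset.sum_ite]
  simp only [Finset.sum_const, nsmul_eq_mul, Finset.sum_boole]
  rw [Finset.sum_ite]
  simp only [Finset.sum_const, nsmul_eq_mul]
  ring

open Classical in
/-- **The inequality.** -/
theorem main [Fintype D] [Fintype C.Orb] :
    20 * (Finset.univ.filter C.sgo).card ≤
      8 * (Finset.univ.filter (fun x => C.mu (C.r x) = 0)).card +
        5 * (Finset.univ.filter (fun x => ¬ C.mu (C.r x) = 0)).card := by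
  have h1 := C.sum_ge
  rw [C.sum_W] at h1
  have h2 := C.two_mul_tri
  have h3 := C.card_big
  have h4 := C.card_xr
  omega

end Pool.Agent.Q238.FP.Core
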