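import Pool.Agent.Q238.FP.Defs
import Pool.Agent.Q238.FP.Sum

/-!
# The core of a drawing
-/

set_option autoImplicit false

namespace Pool.Agent.Q238.FP.Data

variable {V E : Type} (G : Data V E)

theorem rev_rev (d : G.Dart) : G.rev (G.rev d) = d := by
  rcases d with ⟨x, b⟩
  simp [rev]

/-- number of crossing points ahead -/
def mu (d : G.Dart) : ℕ := if d.2 then G.len d.1.1 - d.1.2 else d.1.2

/-- the end vertex ahead -/
def hv (d : G.Dart) : V := G.vert (d.1.1, d.2)

/-- the dart which arrives at the crossing point `x` on the edge `x.1` in the direction `b` -/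
def arr (x : Σ e, Fin (G.len e)) (b : Bool) : G.Dart := G.rev (G.leave x (!b))

theorem rev_arr (x : Σ e, Fin (G.len e)) (b : Bool) : G.rev (G.arr x b) = G.leave x (!b) := by
  unfold arr
  rw [G.rev_rev]

theorem rev_leave (x : Σ e, Fin (G.len e)) (b : Bool) : G.rev (G.leave x b) = G.arr x (!b) := by
  unfold arr
  rw [Bool.not_not]

theorem arr_true (x : Σ e, Fin (G.len e)) : G.arr x true = (⟨x.1, x.2.castSucc⟩, true) := by
  simp [arr, leave, rev]

theorem arr_false (x : Σ e, Fin (G.len e)) : G.arr x false = (⟨x.1, x.2.succ⟩, false) := by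
  simp [arr, leave, rev]

theorem leave_true (x : Σ e, Fin (G.len e)) : G.leave x true = (⟨x.1, x.2.succ⟩, true) := by
  simp [leave]

theorem leave_false (x : Σ e, Fin (G.len e)) : G.leave x false = (⟨x.1, x.2.castSucc⟩, false) := by
  simp [leave]

theorem mu_arr (x : Σ e, Fin (G.len e)) (b : Bool) : G.mu (G.arr x b) = G.mu (G.leave x b) + 1 := by
  have := x.2.2
  cases b
  · rw [arr_false, leave_false]
    simp [mu]
  · rw [arr_true, leave_true]
    simp only [mu, Fin.val_succ, Fin.val_castSucc, if_true]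
    omega

theorem next_arr (x : Σ e, Fin (G.len e)) (b : Bool) :
    G.next (G.arr x b) = G.leave (G.cr x) (b == G.toLeft x) := by
  rcases x with ⟨e, i⟩
  cases b
  · rw [arr_false]
    simp [next]
  · rw [arr_true]
    simp [next]

theorem next_rev_out (x : E × Bool) : G.next (G.rev (G.out x)) = G.out (G.rot x) := by
  rcases x with ⟨e, b⟩
  cases b
  · simp [next, rev, out]
  · simp [next, rev, out]

theorem mu_rev_out (x : E × Bool) : G.mu (G.rev (G.out x)) = 0 := by
  rcases x with ⟨e, b⟩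
  cases b <;> simp [mu, rev, out]

theorem cases_dart (d : G.Dart) : (0 < G.mu d ∧ ∃ x, d = G.arr x d.2) ∨
    (G.mu d = 0 ∧ d = G.rev (G.out (d.1.1, d.2))) := by
  rcases d with ⟨⟨e, i⟩, b⟩
  have hi := i.2
  cases b
  · rcases Nat.eq_zero_or_pos (i : ℕ) with h | h
    · right
      have : i = 0 := Fin.ext h
      subst this
      simp [mu, rev, out]
    · left
      refine ⟨by simpa [mu] using h, ⟨⟨e, ⟨i - 1, by omega⟩⟩, ?_⟩⟩
      rw [arr_false]
      simp only [Prod.mk.injEq, Sigma.mk.injEq, heq_eq_eq, true_and, and_true]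
      apply Fin.ext
      simp only [Fin.val_succ]
      omega
  · rcases Nat.lt_or_ge (i : ℕ) (G.len e) with h | h
    · left
      refine ⟨?_, ⟨⟨e, ⟨i, h⟩⟩, ?_⟩⟩
      · simp only [mu, if_true]
        omega
      · rw [arr_true]
        rfl
    · right
      have : i = Fin.last _ := Fin.ext (by simp only [Fin.val_last]; omega)
      subst this
      simp [mu, rev, out]

theorem exists_arr (d : G.Dart) (h : 0 < G.mu d) : ∃ x b, d = G.arr x b := by
  rcases G.cases_dart d with ⟨-, x, hx⟩ | ⟨h', -⟩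
  · exact ⟨x, d.2, hx⟩
  · omega

theorem exists_out (d : G.Dart) (h : G.mu d = 0) : ∃ x, d = G.rev (G.out x) := by
  rcases G.cases_dart d with ⟨h', -⟩ | ⟨-, h'⟩
  · omega
  · exact ⟨_, h'⟩

theorem mu_arr_pos (x : Σ e, Fin (G.len e)) (b : Bool) : 0 < G.mu (G.arr x b) := by
  rw [G.mu_arr]
  omega

theorem hv_arr (x : Σ e, Fin (G.len e)) (b : Bool) : G.hv (G.arr x b) = G.vert (x.1, b) := by
  cases b
  · rw [arr_false]; rfl
  · rw [arr_true]; rfl

theorem hv_leave (x : Σ e, Fin (G.len e)) (b : Bool) : G.hv (G.leave x b) = G.vert (x.1, b) := by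
  cases b
  · rw [leave_false]; rfl
  · rw [leave_true]; rfl

theorem hv_rev_out (x : E × Bool) : G.hv (G.rev (G.out x)) = G.vert x := by
  rcases x with ⟨e, b⟩
  cases b <;> simp [hv, rev, out]

theorem hv_rev (d : G.Dart) : G.hv (G.rev d) = G.vert (d.1.1, !d.2) := rfl

theorem ed_arr (x : Σ e, Fin (G.len e)) (b : Bool) : (G.arr x b).1.1 = x.1 := rfl

theorem ed_leave (x : Σ e, Fin (G.len e)) (b : Bool) : (G.leave x b).1.1 = x.1 := rfl

theorem dir_arr (x : Σ e, Fin (G.len e)) (b : Bool) : (G.arr x b).2 = b := by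
  simp [arr, rev, leave]

theorem dir_leave (x : Σ e, Fin (G.len e)) (b : Bool) : (G.leave x b).2 = b := rfl

/-- straight on -/
theorem straight (x : Σ e, Fin (G.len e)) (b : Bool) :
    G.next (G.rev (G.next (G.arr x b))) = G.leave x b := by
  rw [G.next_arr, G.rev_leave, G.next_arr, G.cr_cr, G.toLeft_cr]
  congr 1
  cases b <;> cases G.toLeft x <;> rfl

theorem mu_add (d : G.Dart) : G.mu d + G.mu (G.rev d) = G.len d.1.1 := by
  rcases d with ⟨⟨e, i⟩, b⟩
  have := i.2
  cases b
  · simp only [mu, rev, Bool.not_false, if_true, Bool.false_eq_true, if_false]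
    omega
  · simp only [mu, rev, Bool.not_true, if_true, Bool.false_eq_true, if_false]
    omega

theorem turn (x : Σ e, Fin (G.len e)) (b : Bool) :
    G.next (G.rev (G.next (G.rev (G.next (G.rev (G.next (G.arr x b))))))) = G.rev (G.arr x b) := by
  rw [G.straight, G.rev_leave, G.straight, G.rev_arr]

theorem real_mu (d : G.Dart) : G.mu d = 0 ↔ G.mu (G.rev (G.next d)) = 0 := by
  rcases Nat.eq_zero_or_pos (G.mu d) with h | h
  · obtain ⟨x, rfl⟩ := G.exists_out d h
    rw [G.next_rev_out, G.mu_rev_out, G.mu_rev_out]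
  · obtain ⟨x, b, rfl⟩ := G.exists_arr d h
    rw [G.next_arr, G.rev_leave]
    have h1 := G.mu_arr_pos x b
    have h2 := G.mu_arr_pos (G.cr x) (!(b == G.toLeft x))
    omega

theorem vert_rot (x : E × Bool) : G.vert (G.rot x) = G.vert x :=
  (G.rot_vert _ _).1 (Equiv.Perm.sameCycle_apply_left.2 (Equiv.Perm.SameCycle.refl _ _))

theorem out_inj {x y : E × Bool} (h : G.out x = G.out y) : x = y := by
  rcases x with ⟨e, b⟩
  rcases y with ⟨e', b'⟩
  have h1 := congrArg (fun d : G.Dart => d.1.1) h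
  have h2 := congrArg (fun d : G.Dart => d.2) h
  simp only [out] at h1 h2
  rw [Prod.mk.injEq]
  exact ⟨h1, by simpa using h2⟩

theorem rev_inj {x y : G.Dart} (h : G.rev x = G.rev y) : x = y := by
  rw [← G.rev_rev x, h, G.rev_rev]

theorem next_inj {d d' : G.Dart} (h : G.next d = G.next d') : d = d' := by
  rcases Nat.eq_zero_or_pos (G.mu d) with h0 | h0
  · have h0' : G.mu d' = 0 := by
      rw [G.real_mu, ← h, ← G.real_mu]
      exact h0
    obtain ⟨x, rfl⟩ := G.exists_out d h0
    obtain ⟨y, rfl⟩ := G.exists_out d' h0'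
    rw [G.next_rev_out, G.next_rev_out] at h
    rw [G.rot.injective (G.out_inj h)]
  · have h0' : 0 < G.mu d' := by
      rw [Nat.pos_iff_ne_zero, Ne, G.real_mu, ← h, ← G.real_mu]
      omega
    obtain ⟨x, b, rfl⟩ := G.exists_arr d h0
    obtain ⟨y, c, rfl⟩ := G.exists_arr d' h0'
    apply G.rev_inj
    rw [← G.turn x b, ← G.turn y c, h]

theorem ext {d d' : G.Dart} (hl : G.Loopless) (h1 : d.1.1 = d'.1.1) (h2 : G.hv d = G.hv d')
    (h3 : G.mu d = G.mu d') : d = d' := by
  rcases d with ⟨⟨e, i⟩, b⟩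
  rcases d' with ⟨⟨e', i'⟩, b'⟩
  have hi := i.2
  have hi' := i'.2
  dsimp only at h1
  subst h1
  have hb : b = b' := by
    by_contra hne
    cases b <;> cases b'
    · exact hne rfl
    · exact hl e h2
    · exact hl e h2.symm
    · exact hne rfl
  subst hb
  have : i = i' := by
    apply Fin.ext
    cases b
    · simpa [mu] using h3
    · simp only [mu, if_true] at h3
      omega
  rw [this]

end Pool.Agent.Q238.FP.Data
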