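import Pool.Agent.Q238.FP.Tr

/-!
# Three triangle strips at one cell
-/

set_option autoImplicit false

namespace Pool.Agent.Q238.FP.Core

variable {D E V : Type} (C : Core D E V)

/-- Lemma Z: the cells on the side of the strip, ahead. -/
theorem T_ahead {t : D} (h : C.T t) {x : D} (he : C.ed x = C.ed (C.p t))
    (hh : C.hv x = C.hv (C.p t)) (hm : C.mu x < C.mu (C.p t)) (h0 : 0 < C.mu x) : C.Sq x := by
  obtain ⟨b, hb, rfl⟩ := h
  have hx := hb.2.2.1
  rw [C.far_mu_p hx, hb.2.2.2] at hm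
  obtain ⟨i, hi⟩ : ∃ i, C.mu x = i + 1 := ⟨C.mu x - 1, by omega⟩
  have h3 : i < C.slen b := by omega
  have h4 : x = C.p (C.tt b i) := by
    refine C.ext _ _ ?_ ?_ ?_
    · rw [he, C.far_ed_p hx, C.tt_ed_p hx h3.le]
    · rw [hh, C.far_hv_p hx, C.tt_hv_p hx h3.le]
    · rw [C.tt_mu_p hx h3.le, hb.2.2.2]
      omega
  rw [h4, C.sq_p]
  exact C.sq_tt h3

/-- walking ahead along an edge inside a region -/
theorem walk (B : D → Prop) (hn : ∀ x, B (C.n x) ↔ B x) (e : E)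
    (hB : ∀ x, C.ed x = e → 0 < C.mu x → (B (C.r (C.n x)) ↔ B (C.n x))) (m : ℕ) :
    ∀ x, C.mu x = m → C.ed x = e → B x →
      ∃ y, C.mu y = 0 ∧ C.ed y = e ∧ C.hv y = C.hv x ∧ B y := by
  induction m with
  | zero => exact fun x h1 h2 h3 => ⟨x, h1, h2, rfl, h3⟩
  | succ m ih =>
    intro x h1 h2 h3
    have h4 : 0 < C.mu x := by omega
    have h5 := C.mu_st x h4
    obtain ⟨y, hy1, hy2, hy3, hy4⟩ := ih (C.st x) (by omega) (by rw [C.ed_st x h4, h2]) (by
      unfold st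
      rw [hn, hB x h2 h4, hn]
      exact h3)
    exact ⟨y, hy1, hy2, by rw [hy3, C.hv_st x h4], hy4⟩

theorem par_hv {a b : D} (h : C.par a b) : C.hv b = C.hv a ∨ C.hv b = C.hv (C.r a) := by
  rcases h with h | h
  · exact Or.inl h.1.symm
  · exact Or.inr h.2.symm

theorem par_hv_r {a b : D} (h : C.par a b) : C.hv (C.r b) = C.hv a ∨ C.hv (C.r b) = C.hv (C.r a) := by
  rcases h with h | h
  · exact Or.inr h.2.symm
  · exact Or.inl h.1.symm

/-- an edge crossing `x` is not parallel to an edge sharing an end with ... -/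
theorem ed_ne_of_par {x y : D} (hx : 0 < C.mu x) (h : C.par y x) : C.ed (C.n x) ≠ C.ed y := by
  intro he
  have hd := C.disj x hx
  rcases C.hv_ed _ _ he with h1 | h1
  · rcases C.par_hv ((C.par_comm _ _).1 h) with h2 | h2
    · exact hd.1 (by rw [h1, h2])
    · exact hd.2.2.1 (by rw [h1, h2])
  · rcases C.par_hv_r ((C.par_comm _ _).1 h) with h2 | h2
    · exact hd.1 (by rw [h1, h2])
    · exact hd.2.2.1 (by rw [h1, h2])

theorem J1 {s : D} (hT : C.T s) (hP : C.P s) (hP2 : C.P (C.n (C.n s))) :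
    C.ed (C.n (C.n (C.n s))) = C.ed (C.p s) := by
  by_contra hne
  have hx := hT.xx
  have htri := hT.tri_far
  have hfx := htri.2.2.1
  set b := C.far s with hb
  have hfb : C.far b = s := C.far_far hT.not_sq
  have e1 : C.ed (C.p s) = C.ed (C.n b) := by rw [← hfb, C.far_ed_p hfx]
  have e2 : C.ed (C.n s) = C.ed (C.p b) := by rw [← hfb, C.far_ed_n hfx]
  -- the two parallel edges
  have hv0 : C.hv (C.r (C.n s)) = C.hv (C.p s) := hT.hv_rn
  have hv0b : C.hv (C.p s) = C.hv (C.n b) := hT.hv_p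
  have hpar : C.hv (C.p s) = C.hv (C.r (C.n s)) ∧ C.hv (C.r (C.p s)) = C.hv (C.n s) := by
    rcases hP.2 with h | h
    · exact absurd (hv0.trans h.1) (C.hv_r _)
    · exact h
  obtain ⟨A, hA, hA'⟩ := C.lensA (C.p s) (C.r (C.n s)) (by rw [C.ed_r]; exact C.ed_p_ne hx)
    hpar.1 (by rw [C.r_r]; exact hpar.2)
  rw [C.ed_r] at hA'
  set B : D → Prop := fun x => (A x ↔ A s) with hBdef
  have hBn : ∀ x, B (C.n x) ↔ B x := fun x => by
    simp only [hBdef, hA]
  have hBr : ∀ x, C.ed x ≠ C.ed (C.p s) → C.ed x ≠ C.ed (C.n s) → (B (C.r x) ↔ B x) := by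
    intro x h1 h2
    have h3 := (hA' x).2 ⟨h1, h2⟩
    simp only [hBdef]
    tauto
  have hBf : ∀ x, C.ed x = C.ed (C.p s) ∨ C.ed x = C.ed (C.n s) → (B (C.r x) ↔ ¬ B x) := by
    intro x h1
    have h3 : ¬ (A x ↔ A (C.r x)) := by
      rw [hA' x]
      tauto
    simp only [hBdef]
    tauto
  have hBs : B s := Iff.rfl
  -- the strip
  have hstrip : ∀ i ≤ C.slen s, B (C.tt s i) := by
    intro i hi
    induction i with
    | zero =>
      rw [C.tt_zero]
      refine (hBr _ ?_ ?_).2 hBs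
      · intro h
        have := C.ed_n_ne (C.p s) ((C.mu_p_pos s).2 hx.2)
        rw [C.n_p] at this
        exact this h
      · intro h
        exact C.ed_n_ne s hx.1 h.symm
    | succ i ih =>
      have h1 : B (C.r (C.tt s (i + 1))) := by
        rw [C.r_tt, hBn, hBn]
        exact ih (by omega)
      rwa [hBr _ ?_ ?_] at h1
      · rw [← C.tt_ed_n hx hi]
        exact fun h => C.ed_n_ne _ (C.tt_xx hx hi).1 h.symm
      · rw [← C.tt_ed_p hx hi]
        intro h
        have := C.ed_n_ne (C.p (C.tt s (i + 1))) ((C.mu_p_pos _).2 (C.tt_xx hx hi).2)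
        rw [C.n_p] at this
        exact this h
  have hBb : B b := hstrip _ le_rfl
  have hBpb : B (C.p b) := by rw [← hBn, C.n_p]; exact hBb
  -- around the vertex
  have hvb : C.hv (C.r (C.p b)) = C.hv (C.p s) := by rw [htri.hv_rp, hv0b]
  have hvert : ∀ x, C.mu (C.r x) = 0 → C.hv (C.r x) = C.hv (C.p s) → B x → x = C.p b := by
    intro x h1 h2
    refine C.vert (fun x => B x → x = C.p b) (C.p b) x htri.mu_rp h1 (by rw [hvb, h2]) ?_ (fun _ => rfl)
    intro y hy1 hy2 hQ hy3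
    rw [hvb] at hy2
    rw [hBn] at hy3
    by_cases hy4 : C.ed y = C.ed (C.p s) ∨ C.ed y = C.ed (C.n s)
    · rcases hy4 with hy4 | hy4
      · have h5 : C.r y = C.n b := by
          refine C.ext _ _ (by rw [C.ed_r, hy4, e1]) (by rw [hy2, hv0b]) ?_
          rw [hy1, htri.2.2.2]
        rw [h5, htri.p_eq]
      · exfalso
        have h5 : C.r y = C.r (C.p b) := by
          refine C.ext _ _ (by rw [C.ed_r, C.ed_r, hy4, e2]) (by rw [hy2, hvb]) ?_
          rw [hy1, htri.mu_rp]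
        rw [h5, hBf _ (Or.inr e2.symm)] at hy3
        exact hy3 hBpb
    · rw [not_or] at hy4
      rw [hBr y hy4.1 hy4.2] at hy3
      have h5 := hQ hy3
      exact absurd (by rw [h5, e2]) hy4.2
  -- the third edge
  have hpar2 := hP2.2
  rw [C.p_n] at hpar2
  have hne2 : C.ed (C.n (C.n (C.n s))) ≠ C.ed (C.n s) := by
    have := C.ed_p_ne hP2.1
    rw [C.p_n] at this
    exact this.symm
  obtain ⟨x, hx1, hx2, hx3⟩ : ∃ x, C.ed x = C.ed (C.n (C.n (C.n s))) ∧ C.hv x = C.hv (C.p s) ∧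
      B x := by
    have hB3 : B (C.n (C.n (C.n s))) := (hBn _).2 ((hBn _).2 ((hBn _).2 hBs))
    rcases hpar2 with h | h
    · refine ⟨C.r (C.n (C.n (C.n s))), C.ed_r _, by rw [← h.2, hv0], ?_⟩
      rw [hBr _ hne hne2]
      exact hB3
    · exact ⟨_, rfl, by rw [← h.2, hv0], hB3⟩
  have hparx : ∀ z, C.ed z = C.ed (C.n (C.n (C.n s))) → C.par (C.n s) z := by
    intro z hz
    rcases C.dir _ _ hz with h | h
    · rcases hpar2 with h' | h'
      · exact Or.inl ⟨by rw [h'.1, h.1], by rw [h'.2, h.2]⟩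
      · exact Or.inr ⟨by rw [h'.1, h.2], by rw [h'.2, h.1]⟩
    · rcases hpar2 with h' | h'
      · exact Or.inr ⟨by rw [h'.1, h.2], by rw [h'.2, h.1]⟩
      · exact Or.inl ⟨by rw [h'.1, h.1], by rw [h'.2, h.2]⟩
  have hparx' : ∀ z, C.ed z = C.ed (C.n (C.n (C.n s))) → C.par (C.p s) z := by
    intro z hz
    rcases hparx z hz with h' | h'
    · exact Or.inr ⟨by rw [hpar.1, h'.2], by rw [hpar.2, h'.1]⟩
    · exact Or.inl ⟨by rw [hpar.1, h'.2], by rw [hpar.2, h'.1]⟩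
  obtain ⟨y, hy1, hy2, hy3, hy4⟩ := C.walk B hBn (C.ed (C.n (C.n (C.n s)))) (fun z hz hz' => by
    exact hBr _ (C.ed_ne_of_par hz' (hparx' z hz)) (C.ed_ne_of_par hz' (hparx z hz))) _ x rfl
    hx1 hx3
  have h6 := hvert (C.n y) ((C.real_mu y).1 hy1) (by rw [C.real_hv y hy1, hy3, hx2])
    (by rw [hBn]; exact hy4)
  have h7 : y = C.n b := by
    rw [← C.p_n y, h6, htri.p_eq, C.p_n]
  apply hne
  rw [← hy2, h7, e1]

theorem J2 {s : D} (hT : C.T s) (hT4 : C.T (C.n (C.n (C.n (C.n s)))))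
    (he : C.ed (C.n (C.n (C.n s))) = C.ed (C.p s))
    (hh : C.hv (C.n (C.n (C.n s))) = C.hv (C.p s)) : C.n (C.n (C.n (C.n s))) = s := by
  have hm1 : 0 < C.mu (C.p s) := (C.mu_p_pos s).2 hT.xx.2
  have hm2 : 0 < C.mu (C.n (C.n (C.n s))) := by
    have := (C.mu_p_pos _).2 hT4.xx.2
    rwa [C.p_n] at this
  rcases lt_trichotomy (C.mu (C.n (C.n (C.n s)))) (C.mu (C.p s)) with h | h | h
  · exfalso
    have := C.T_ahead hT he hh h hm2
    rw [C.sq_n, C.sq_n, C.sq_n] at this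
    exact absurd this hT.not_sq
  · have := C.ext _ _ he hh h
    rw [this, C.n_p]
  · exfalso
    have := C.T_ahead hT4 (x := C.p s) (by rw [C.p_n]; exact he.symm) (by rw [C.p_n]; exact hh.symm)
      (by rw [C.p_n]; exact h) hm1
    rw [C.sq_p] at this
    exact absurd this hT.not_sq

/-- Lemma J. -/
theorem J {s : D} (hT : C.T s) (hT2 : C.T (C.n (C.n s))) (hT4 : C.T (C.n (C.n (C.n (C.n s)))))
    (hP : C.P s) (hP2 : C.P (C.n (C.n s))) : C.n (C.n (C.n (C.n s))) = s := by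
  have he := C.J1 hT hP hP2
  refine C.J2 hT hT4 he ?_
  rcases C.dir _ _ he with h | h
  · exact h.1
  · exfalso
    have h1 := hT2.hv_rn
    rw [C.p_n] at h1
    have h2 := hT.hv_rn
    rw [h.2, ← h2] at h1
    exact C.hv_r _ h1

theorem J' {s : D} (hT : C.T s) (hT2 : C.T (C.p (C.p s))) (hT4 : C.T (C.p (C.p (C.p (C.p s)))))
    (hP : C.P s) (hP2 : C.P (C.p (C.p s))) : C.p (C.p (C.p (C.p s))) = s := by
  have h := C.mirror.J (s := C.r s)
  simp only [mirror_n_r, C.mirror_T, C.mirror_P] at h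
  exact C.r_inj (h hT hT2 hT4 hP hP2)

end Pool.Agent.Q238.FP.Core
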