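import Pool.Agent.Q238.FP.Strip

/-!
# The mirror image and the strips; parallel edges
-/

set_option autoImplicit false

namespace Pool.Agent.Q238.FP.Core

variable {D E V : Type} (C : Core D E V)

theorem mirror_xx (d : D) : C.mirror.XX d ↔ C.XX d := Iff.rfl

theorem mirror_n_r (d : D) : C.mirror.n (C.r d) = C.r (C.p d) := by simp

theorem mirror_p_r (d : D) : C.mirror.p (C.r d) = C.r (C.n d) := by simp

theorem p4_iff (d : D) : C.p (C.p (C.p (C.p d))) = d ↔ C.n (C.n (C.n (C.n d))) = d := by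
  constructor
  · intro h
    conv_lhs => rw [← h]
    simp
  · intro h
    conv_lhs => rw [← h]
    simp

theorem p3_iff (d : D) : C.p (C.p (C.p d)) = d ↔ C.n (C.n (C.n d)) = d := by
  constructor
  · intro h
    conv_lhs => rw [← h]
    simp
  · intro h
    conv_lhs => rw [← h]
    simp

theorem mirror_sq (d : D) : C.mirror.Sq (C.r d) ↔ C.Sq d := by
  constructor
  · rintro ⟨h0, h1, h2, h3, h4, h5⟩
    simp only [mirror_sg, C.r_r, mirror_n_r, mirror_mu] at h0 h1 h2 h3 h4 h5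
    have h6 : C.n (C.n (C.n (C.n d))) = d := (C.p4_iff d).1 (C.r_inj h1)
    have e1 : C.p d = C.n (C.n (C.n d)) := C.n_inj (by rw [C.n_p, h6])
    have e2 : C.p (C.p d) = C.n (C.n d) := C.n_inj (by rw [C.n_p, e1])
    have e3 : C.p (C.p (C.p d)) = C.n d := C.n_inj (by rw [C.n_p, e2])
    have g2 := (C.mu_p_pos d).2 h2
    have g3 := (C.mu_p_pos (C.p d)).2 h3
    have g4 := (C.mu_p_pos (C.p (C.p d))).2 h4
    have g5 := (C.mu_p_pos (C.p (C.p (C.p d)))).2 h5
    rw [(C.p4_iff d).2 h6] at g5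
    rw [e3] at g4
    rw [e2] at g3
    rw [e1] at g2
    exact ⟨h0, h6, g5, g4, g3, g2⟩
  · rintro ⟨h0, h6, h2, h3, h4, h5⟩
    have e1 : C.p d = C.n (C.n (C.n d)) := C.n_inj (by rw [C.n_p, h6])
    have e2 : C.p (C.p d) = C.n (C.n d) := C.n_inj (by rw [C.n_p, e1])
    have e3 : C.p (C.p (C.p d)) = C.n d := C.n_inj (by rw [C.n_p, e2])
    refine ⟨?_, ?_, ?_, ?_, ?_, ?_⟩ <;> simp only [mirror_sg, C.r_r, mirror_n_r, mirror_mu]
    · exact h0
    · rw [(C.p4_iff d).2 h6]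
    · rw [← C.mu_p_pos, e1]; exact h5
    · rw [← C.mu_p_pos, e2]; exact h4
    · rw [← C.mu_p_pos, e3]; exact h3
    · rw [← C.mu_p_pos, (C.p4_iff d).2 h6]; exact h2

theorem mirror_tri (d : D) : C.mirror.Tri (C.r d) ↔ C.Tri d := by
  constructor
  · rintro ⟨h0, h1, h2, h3⟩
    simp only [mirror_sg, C.r_r, mirror_n_r, mirror_mu] at h0 h1 h3
    have h6 : C.n (C.n (C.n d)) = d := (C.p3_iff d).1 (C.r_inj h1)
    have e1 : C.p d = C.n (C.n d) := C.n_inj (by rw [C.n_p, h6])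
    have e2 : C.p (C.p d) = C.n d := C.n_inj (by rw [C.n_p, e1])
    refine ⟨h0, h6, (C.xx_r d).1 h2, ?_⟩
    rw [← e2, C.mu_p]
    exact h3
  · rintro ⟨h0, h6, h2, h3⟩
    have e1 : C.p d = C.n (C.n d) := C.n_inj (by rw [C.n_p, h6])
    have e2 : C.p (C.p d) = C.n d := C.n_inj (by rw [C.n_p, e1])
    refine ⟨?_, ?_, ?_, ?_⟩
    · simpa using h0
    · simp only [mirror_n_r]
      rw [(C.p3_iff d).2 h6]
    · exact (C.xx_r d).2 h2
    · simp only [mirror_n_r, mirror_mu]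
      rw [← C.mu_p, e2]
      exact h3

theorem mirror_big (d : D) : C.mirror.Big (C.r d) ↔ C.Big d := by
  unfold Big
  rw [C.mirror_tri, C.mirror_sq, C.mirror_xx, C.xx_r]

theorem mirror_nx {t : D} (h : C.Sq t) : C.mirror.nx (C.r t) = C.r (C.nx t) := by
  unfold nx
  simp only [mirror_n_r, mirror_r, C.r_r]
  rw [h.p_eq, C.p_n]

theorem mirror_tt {d : D} {i : ℕ} (h : i ≤ C.slen d) :
    C.mirror.tt (C.r d) i = C.r (C.tt d i) := by
  induction i with
  | zero => rfl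
  | succ i ih =>
    rw [C.mirror.tt_succ, ih (by omega), C.tt_succ, C.mirror_nx (C.sq_tt (by omega))]

theorem mirror_slen (d : D) : C.mirror.slen (C.r d) = C.slen d := by
  apply C.mirror.slen_eq
  · intro i hi
    rw [C.mirror_tt (by omega), C.mirror_sq]
    exact C.sq_tt hi
  · rw [C.mirror_tt le_rfl, C.mirror_sq]
    exact C.not_sq_far d

theorem mirror_far (d : D) : C.mirror.far (C.r d) = C.r (C.far d) := by
  unfold far
  rw [C.mirror_slen, C.mirror_tt le_rfl]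

/-- parallel edges (or the same edge) -/
def par (a b : D) : Prop := (C.hv a = C.hv b ∧ C.hv (C.r a) = C.hv (C.r b)) ∨
  (C.hv a = C.hv (C.r b) ∧ C.hv (C.r a) = C.hv b)

theorem par_comm (a b : D) : C.par a b ↔ C.par b a := by
  unfold par
  constructor
  · rintro (⟨h, h'⟩ | ⟨h, h'⟩)
    · exact Or.inl ⟨h.symm, h'.symm⟩
    · exact Or.inr ⟨h'.symm, h.symm⟩
  · rintro (⟨h, h'⟩ | ⟨h, h'⟩)
    · exact Or.inl ⟨h.symm, h'.symm⟩
    · exact Or.inr ⟨h'.symm, h.symm⟩

theorem par_r_left (a b : D) : C.par (C.r a) b ↔ C.par a b := by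
  unfold par
  rw [C.r_r]
  tauto

theorem par_r_right (a b : D) : C.par a (C.r b) ↔ C.par a b := by
  unfold par
  rw [C.r_r]
  tauto

theorem mirror_par (a b : D) : C.mirror.par a b ↔ C.par a b := Iff.rfl

/-- the edges before and after an inner side are parallel -/
def P (d : D) : Prop := C.XX d ∧ C.par (C.p d) (C.n d)

theorem mirror_P (d : D) : C.mirror.P (C.r d) ↔ C.P d := by
  unfold P
  rw [C.mirror_xx, C.xx_r, mirror_n_r, mirror_p_r, C.mirror_par, C.par_r_left, C.par_r_right,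
    C.par_comm]

/-- the far end of the strip at a triangle -/
def T (t : D) : Prop := ∃ b, C.Tri b ∧ C.far b = t

theorem T.not_sq {t : D} (h : C.T t) : ¬ C.Sq t := by
  obtain ⟨b, -, rfl⟩ := h
  exact C.not_sq_far b

theorem T.xx {t : D} (h : C.T t) : C.XX t := by
  obtain ⟨b, h, rfl⟩ := h
  exact C.far_xx h.2.2.1

theorem T.tri_far {t : D} (h : C.T t) : C.Tri (C.far t) := by
  obtain ⟨b, h, rfl⟩ := h
  rw [C.far_far h.not_sq]
  exact h

theorem T.hv_p {t : D} (h : C.T t) : C.hv (C.p t) = C.hv (C.n (C.far t)) := by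
  have := C.far_hv_p h.tri_far.2.2.1
  rwa [C.far_far h.not_sq] at this

theorem T.hv_rn {t : D} (h : C.T t) : C.hv (C.r (C.n t)) = C.hv (C.p t) := by
  have h1 := C.far_hv_rn h.tri_far.2.2.1
  rw [C.far_far h.not_sq] at h1
  rw [h1, h.tri_far.hv_rp, h.hv_p]

theorem mirror_T (t : D) : C.mirror.T (C.r t) ↔ C.T t := by
  constructor
  · rintro ⟨b, h, h'⟩
    refine ⟨C.r b, ?_, ?_⟩
    · rw [← C.mirror_tri, C.r_r]
      exact h
    · apply C.r_inj
      rw [← C.mirror_far, C.r_r, h']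
  · rintro ⟨b, h, h'⟩
    refine ⟨C.r b, (C.mirror_tri b).2 h, ?_⟩
    rw [C.mirror_far, h']

/-- the edges before and after an inner side are different -/
theorem ed_p_ne {d : D} (h : C.XX d) : C.ed (C.p d) ≠ C.ed (C.n d) := by
  intro he
  have h1 := C.mu_bk d h.2
  have h2 := C.once d (C.bk d) h.1 (by omega) (C.ed_bk d h.2).symm (C.hv_bk d h.2).symm
    (by rw [C.n_bk d h.2, C.ed_r, he])
  rw [← h2] at h1
  omega

end Pool.Agent.Q238.FP.Core
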