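import Pool.Agent.Q238.FP.Inst

/-!
# The core of a drawing
-/

set_option autoImplicit false

namespace Pool.Agent.Q238.FP.Drawing

variable {V E F : Type} (G : Drawing V E F)

/-- the left ends of the edges crossing `e` agree -/
def LE (e : E) : Prop := ∃ w, ∀ i, G.leftEnd ⟨e, i⟩ = w

/-- simply bounded faces without isolated vertices -/
def Sg (d : G.Dart) : Prop :=
  (∀ d', G.face d' = G.face d → (Quot.mk _ d' : G.Walk) = Quot.mk _ d) ∧
    ∀ v : G.Iso, G.loc v.1 ≠ G.face d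

theorem walk_next (d : G.Dart) : (Quot.mk _ (G.next d) : G.Walk) = Quot.mk _ d :=
  (Quot.sound (r := fun d d' : G.Dart => G.next d = d') rfl).symm

theorem sg_next (d : G.Dart) : G.Sg (G.next d) ↔ G.Sg d := by
  unfold Sg
  rw [G.face_next, G.walk_next]

/-- `n`-invariant sets are constant on walks -/
theorem inv_walk (S : G.Dart → Prop) (hS : ∀ x, S (G.next x) ↔ S x) {d d' : G.Dart}
    (h : (Quot.mk _ d : G.Walk) = Quot.mk _ d') : S d ↔ S d' := by
  have := congrArg (Quot.lift S (fun a b (hab : G.next a = b) => by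
    rw [← hab]
    exact propext (hS a).symm)) h
  exact iff_of_eq this

theorem hv_ed (d d' : G.Dart) (h : d.1.1 = d'.1.1) :
    G.hv d = G.hv d' ∨ G.hv d = G.hv (G.rev d') := by
  rcases d with ⟨⟨e, i⟩, b⟩
  rcases d' with ⟨⟨e', i'⟩, b'⟩
  dsimp only at h
  subst h
  cases b <;> cases b'
  · left; rfl
  · right; rfl
  · right; rfl
  · left; rfl

theorem dir_eq (hl : G.Loopless) (d d' : G.Dart) (h : d.1.1 = d'.1.1) (h' : G.hv d = G.hv d') :
    d.2 = d'.2 := by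
  rcases d with ⟨⟨e, i⟩, b⟩
  rcases d' with ⟨⟨e', i'⟩, b'⟩
  dsimp only at h
  subst h
  cases b <;> cases b'
  · rfl
  · exact absurd h' (hl e)
  · exact absurd h'.symm (hl e)
  · rfl

/-- the common part of the two lens lemmas -/
theorem par_sets (d d' : G.Dart) (h : d.1.1 ≠ d'.1.1) (h1 : G.hv d = G.hv d')
    (h2 : G.hv (G.rev d) = G.hv (G.rev d')) :
    ({G.vert (d.1.1, false), G.vert (d.1.1, true)} : Set V) =
      {G.vert (d'.1.1, false), G.vert (d'.1.1, true)} := by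
  rcases d with ⟨⟨e, i⟩, b⟩
  rcases d' with ⟨⟨e', i'⟩, b'⟩
  simp only [Data.hv, Data.rev] at h1 h2 ⊢
  cases b <;> cases b' <;> simp only [Bool.not_false, Bool.not_true] at h1 h2 <;> rw [h1, h2]
  · exact Set.pair_comm _ _
  · exact Set.pair_comm _ _

theorem ends (d : G.Dart) (v : V) (h1 : v ≠ G.vert (d.1.1, false)) (h2 : v ≠ G.vert (d.1.1, true)) :
    v ≠ G.hv d ∧ v ≠ G.hv (G.rev d) := by
  rcases d with ⟨⟨e, i⟩, b⟩
  cases b
  · exact ⟨h1, h2⟩
  · exact ⟨h2, h1⟩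

theorem lensA (hh : G.NonHomotopic) (d d' : G.Dart) (h : d.1.1 ≠ d'.1.1)
    (h1 : G.hv d = G.hv d') (h2 : G.hv (G.rev d) = G.hv (G.rev d')) :
    ∃ A : G.Dart → Prop, (∀ x, A (G.next x) ↔ A x) ∧
      ∀ x, (A x ↔ A (G.rev x)) ↔ x.1.1 ≠ d.1.1 ∧ x.1.1 ≠ d'.1.1 := by
  obtain ⟨A, hA, -, -⟩ := hh d.1.1 d'.1.1 h (G.par_sets d d' h h1 h2)
  exact ⟨fun x => G.face x ∈ A, fun x =>
    iff_of_eq (congrArg (fun f => f ∈ A) (G.face_next x)), hA⟩

theorem iff_aux {a b s t c : Prop} (h1 : (a ↔ b) ↔ c) (h2 : (s ↔ t) ↔ c) :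
    ¬ (a ↔ s) ↔ ¬ (b ↔ t) := by
  by_cases ha : a <;> by_cases hb : b <;> by_cases hs : s <;> by_cases ht : t <;> simp_all

theorem exists_out_of_sg (d : G.Dart) (hd : G.Sg d) (v : V) (hv : G.loc v = G.face d) :
    ∃ y, G.vert y = v ∧ G.face (G.out y) = G.face d := by
  by_cases hiso : ∀ x, G.vert x ≠ v
  · exact absurd hv (hd.2 ⟨v, hiso⟩)
  · push Not at hiso
    obtain ⟨x, hx⟩ := hiso
    obtain ⟨y, hy1, hy2⟩ := G.face_loc x
    exact ⟨y, by rw [hy1, hx], by rw [hy2, hx, hv]⟩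

theorem lensS (hh : G.NonHomotopic) (d d' : G.Dart) (h : d.1.1 ≠ d'.1.1)
    (h1 : G.hv d = G.hv d') (h2 : G.hv (G.rev d) = G.hv (G.rev d')) (S : G.Dart → Prop)
    (hS : ∀ x, S (G.next x) ↔ S x) (hsg : ∀ x, S x → G.Sg x)
    (hf : ∀ x, (S x ↔ S (G.rev x)) ↔ x.1.1 ≠ d.1.1 ∧ x.1.1 ≠ d'.1.1) :
    ∃ x, S x ∧ G.mu (G.rev x) = 0 ∧ G.hv (G.rev x) ≠ G.hv d ∧ G.hv (G.rev x) ≠ G.hv (G.rev d) := by
  obtain ⟨A, hA, ⟨v, hv1, hv2, hv3⟩, ⟨w, hw1, hw2, hw3⟩⟩ :=
    hh d.1.1 d'.1.1 h (G.par_sets d d' h h1 h2)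
  -- the set of faces given by `S`
  set SF : Set F := {f | ∃ x, S x ∧ G.face x = f} with hSF
  have hmem : ∀ x, G.face x ∈ SF ↔ S x := by
    intro x
    constructor
    · rintro ⟨y, hy, hyx⟩
      exact (G.inv_walk S hS ((hsg y hy).1 x hyx.symm)).2 hy
    · intro hx
      exact ⟨x, hx, rfl⟩
  have key : ∀ u : V, u ≠ G.vert (d.1.1, false) → u ≠ G.vert (d.1.1, true) → G.loc u ∈ SF →
      ∃ x, S x ∧ G.mu (G.rev x) = 0 ∧ G.hv (G.rev x) ≠ G.hv d ∧
        G.hv (G.rev x) ≠ G.hv (G.rev d) := by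
    rintro u hu1 hu2 ⟨x, hx, hxu⟩
    obtain ⟨y, hy1, hy2⟩ := G.exists_out_of_sg x (hsg x hx) u hxu.symm
    refine ⟨G.out y, ?_, G.mu_rev_out y, ?_, ?_⟩
    · rw [← hmem, hy2, hmem]
      exact hx
    · rw [G.hv_rev_out, hy1]
      exact (G.ends d u hu1 hu2).1
    · rw [G.hv_rev_out, hy1]
      exact (G.ends d u hu1 hu2).2
  -- the symmetric difference
  rcases G.conn {f | ¬ (f ∈ A ↔ f ∈ SF)} (fun x => by
    have e2 := hf x
    rw [← hmem x, ← hmem (G.rev x)] at e2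
    exact iff_aux (hA x) e2) with hB | hB
  · -- `A = SF`
    have h3 : ¬ ¬ (G.loc v ∈ A ↔ G.loc v ∈ SF) := by
      intro h4
      have h5 : G.loc v ∈ {f | ¬ (f ∈ A ↔ f ∈ SF)} := h4
      rw [hB] at h5
      exact h5
    exact key v hv1 hv2 ((not_not.1 h3).1 hv3)
  · have h3 : ¬ (G.loc w ∈ A ↔ G.loc w ∈ SF) := by
      have h5 : G.loc w ∈ {f | ¬ (f ∈ A ↔ f ∈ SF)} := by rw [hB]; exact Set.mem_univ _
      exact h5
    refine key w hw1 hw2 ?_
    by_contra h4
    exact h3 ⟨fun h => absurd h hw3, fun h => absurd h h4⟩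

theorem nodeg (h3 : ∀ a b : V, ∃ c, c ≠ a ∧ c ≠ b) (d : G.Dart) :
    ¬ (G.Sg d ∧ G.next d = G.rev d ∧ G.next (G.rev d) = d) := by
  rintro ⟨hs, h1, h2⟩
  obtain ⟨v, hv1, hv2⟩ := h3 (G.hv d) (G.hv (G.rev d))
  have hf : G.face (G.rev d) = G.face d := by rw [← h1, G.face_next]
  have hS : ∀ x, (x = d ∨ x = G.rev d) → (G.next x = d ∨ G.next x = G.rev d) := by
    rintro x (rfl | rfl)
    · exact Or.inr h1
    · exact Or.inl h2
  have hS' : ∀ x, (G.next x = d ∨ G.next x = G.rev d) → (x = d ∨ x = G.rev d) := by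
    rintro x (h | h)
    · exact Or.inr (G.next_inj (by rw [h, h2]))
    · exact Or.inl (G.next_inj (by rw [h, h1]))
  have hmem : ∀ x, G.face x = G.face d → (x = d ∨ x = G.rev d) := by
    intro x hx
    exact (G.inv_walk (fun x => x = d ∨ x = G.rev d) (fun x => ⟨hS' x, hS x⟩)
      (hs.1 x hx)).2 (Or.inl rfl)
  have hA := G.conn {G.face d} (fun x => by
    simp only [Set.mem_singleton_iff]
    constructor
    · intro hx
      rcases hmem x hx with rfl | rfl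
      · exact hf
      · rw [G.rev_rev]
    · intro hx
      rcases hmem _ hx with h | h
      · rw [← G.rev_rev x, h, hf]
      · rw [G.rev_inj h])
  rcases hA with hA | hA
  · exact absurd (Set.mem_singleton (G.face d)) (by rw [hA]; exact fun h => h)
  · have hloc : G.loc v = G.face d := by
      have : G.loc v ∈ ({G.face d} : Set F) := by rw [hA]; exact Set.mem_univ _
      exact this
    obtain ⟨y, hy1, hy2⟩ := G.exists_out_of_sg d hs v hloc
    rcases hmem _ hy2 with h | h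
    · apply hv2
      rw [← h, G.hv_rev_out, hy1]
    · apply hv1
      rw [← G.rev_rev d, ← h, G.hv_rev_out, hy1]

theorem vert_ind [Finite E] (Q : G.Dart → Prop) (d d' : G.Dart) (h : G.mu (G.rev d) = 0)
    (h' : G.mu (G.rev d') = 0) (hh : G.hv (G.rev d) = G.hv (G.rev d'))
    (hQ : ∀ x, G.mu (G.rev x) = 0 → G.hv (G.rev x) = G.hv (G.rev d) → Q x → Q (G.next (G.rev x)))
    (hd : Q d) : Q d' := by
  obtain ⟨x, hx⟩ := G.exists_out _ h
  obtain ⟨y, hy⟩ := G.exists_out _ h'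
  have hx' := G.rev_inj hx
  have hy' := G.rev_inj hy
  subst hx' hy'
  rw [G.hv_rev_out, G.hv_rev_out] at hh
  obtain ⟨i, hi⟩ := ((G.rot_vert x y).2 hh).exists_nat_pow_eq
  rw [← hi]
  clear hi hh h'
  have key : Q (G.out ((G.rot ^ i) x)) ∧ G.vert ((G.rot ^ i) x) = G.vert x := by
    induction i with
    | zero => exact ⟨hd, rfl⟩
    | succ i ih =>
      rw [pow_succ', Equiv.Perm.mul_apply]
      refine ⟨?_, by rw [G.vert_rot, ih.2]⟩
      have := hQ _ (G.mu_rev_out _) (by rw [G.hv_rev_out, G.hv_rev_out, ih.2]) ih.1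
      rwa [G.next_rev_out] at this
  exact key.1

/-- the apex is on the left -/
def Ap (d : G.Dart) : Prop := d.2 = true ↔ G.LE d.1.1

theorem ap_rev (d : G.Dart) : G.Ap (G.rev d) ↔ ¬ G.Ap d := by
  rcases d with ⟨⟨e, i⟩, b⟩
  unfold Ap
  cases b <;> simp [Data.rev]

theorem rightEnd_of_not (hf : G.FanPlanar) (e : E) (h : ¬ G.LE e) :
    ∃ w, ∀ i, G.rightEnd ⟨e, i⟩ = w := (hf e).resolve_left h

/-- the fan on the left -/
theorem fan_l (hl : G.Loopless) (hf : G.FanPlanar) (d d' : G.Dart) (ha : G.Ap d) (h : 0 < G.mu d)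
    (h' : 0 < G.mu d') (he : d.1.1 = d'.1.1) (hh : G.hv d = G.hv d') :
    G.hv (G.next d) = G.hv (G.next d') := by
  have hdir := G.dir_eq hl d d' he hh
  obtain ⟨⟨e, i⟩, b, rfl⟩ := G.exists_arr d h
  obtain ⟨⟨e', j⟩, c, rfl⟩ := G.exists_arr d' h'
  rw [G.dir_arr, G.dir_arr] at hdir
  rw [G.ed_arr, G.ed_arr] at he
  dsimp only at he
  subst he hdir
  rw [G.next_arr, G.next_arr, G.hv_leave, G.hv_leave]
  unfold Ap at ha
  rw [G.dir_arr, G.ed_arr] at ha
  cases b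
  · have hL : ¬ G.LE e := by simpa using ha
    obtain ⟨w, hw⟩ := G.rightEnd_of_not hf e hL
    have e1 := hw i
    have e2 := hw j
    unfold Data.rightEnd at e1 e2
    simp only [Bool.false_beq]
    rw [e1, e2]
  · have hL : G.LE e := by simpa using ha
    obtain ⟨w, hw⟩ := hL
    have e1 := hw i
    have e2 := hw j
    unfold Data.leftEnd at e1 e2
    simp only [Bool.true_beq]
    rw [e1, e2]

theorem fan_r (hl : G.Loopless) (hf : G.FanPlanar) (d d' : G.Dart) (ha : ¬ G.Ap d)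
    (h : 0 < G.mu d) (h' : 0 < G.mu d') (he : d.1.1 = d'.1.1) (hh : G.hv d = G.hv d') :
    G.hv (G.rev (G.next d)) = G.hv (G.rev (G.next d')) := by
  have hdir := G.dir_eq hl d d' he hh
  obtain ⟨⟨e, i⟩, b, rfl⟩ := G.exists_arr d h
  obtain ⟨⟨e', j⟩, c, rfl⟩ := G.exists_arr d' h'
  rw [G.dir_arr, G.dir_arr] at hdir
  rw [G.ed_arr, G.ed_arr] at he
  dsimp only at he
  subst he hdir
  rw [G.next_arr, G.next_arr, G.rev_leave, G.rev_leave, G.hv_arr, G.hv_arr]
  unfold Ap at ha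
  rw [G.dir_arr, G.ed_arr] at ha
  cases b
  · have hL : G.LE e := by
      by_contra hL
      exact ha (by simpa using hL)
    obtain ⟨w, hw⟩ := hL
    have e1 := hw i
    have e2 := hw j
    unfold Data.leftEnd at e1 e2
    simp only [Bool.false_beq, Bool.not_not]
    rw [e1, e2]
  · have hL : ¬ G.LE e := by simpa using ha
    obtain ⟨w, hw⟩ := G.rightEnd_of_not hf e hL
    have e1 := hw i
    have e2 := hw j
    unfold Data.rightEnd at e1 e2
    simp only [Bool.true_beq]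
    rw [e1, e2]

theorem next_surj [Finite E] : Function.Surjective G.next :=
  Finite.surjective_of_injective (fun _ _ h => G.next_inj h)

noncomputable def prev [Finite E] (d : G.Dart) : G.Dart := Function.surjInv G.next_surj d

theorem next_prev [Finite E] (d : G.Dart) : G.next (G.prev d) = d :=
  Function.surjInv_eq G.next_surj d

/-- the core of a drawing -/
noncomputable def toCore [Finite E] (hl : G.Loopless) (hs : G.Simple) (hf : G.FanPlanar)
    (hh : G.NonHomotopic) (h3 : ∀ a b : V, ∃ c, c ≠ a ∧ c ≠ b) : Core G.Dart E V where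
  r := G.rev
  n := G.next
  p := G.prev
  ed d := d.1.1
  hv := G.hv
  mu := G.mu
  ap := G.Ap
  sg := G.Sg
  r_r := G.rev_rev
  n_p := G.next_prev
  p_n d := G.next_inj (G.next_prev _)
  ed_r d := rfl
  hv_r d := by
    rcases d with ⟨⟨e, i⟩, b⟩
    cases b
    · exact (hl e).symm
    · exact hl e
  hv_ed := G.hv_ed
  ext d d' := G.ext hl
  mu_ed d d' h := by rw [G.mu_add, G.mu_add, h]
  real_mu := G.real_mu
  real_hv d h := by
    obtain ⟨x, rfl⟩ := G.exists_out d h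
    rw [G.next_rev_out, G.hv_rev_out, G.hv_rev_out, G.vert_rot]
  st_mu d h := by
    obtain ⟨x, b, rfl⟩ := G.exists_arr d h
    rw [G.straight, G.mu_arr]
  st_ed d h := by
    obtain ⟨x, b, rfl⟩ := G.exists_arr d h
    rw [G.straight]
    rfl
  st_hv d h := by
    obtain ⟨x, b, rfl⟩ := G.exists_arr d h
    rw [G.straight, G.hv_leave, G.hv_arr]
  turn d h := by
    obtain ⟨x, b, rfl⟩ := G.exists_arr d h
    exact G.turn x b
  disj d h := by
    obtain ⟨x, b, rfl⟩ := G.exists_arr d h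
    rw [G.next_arr, G.rev_leave, G.rev_arr, G.hv_arr, G.hv_leave, G.hv_arr, G.hv_leave]
    exact ⟨hs.1 _ _ _, hs.1 _ _ _, hs.1 _ _ _, hs.1 _ _ _⟩
  once d d' h h' he hh hn := by
    have hdir := G.dir_eq hl d d' he hh
    obtain ⟨x, b, rfl⟩ := G.exists_arr d h
    obtain ⟨y, c, rfl⟩ := G.exists_arr d' h'
    rw [G.dir_arr, G.dir_arr] at hdir
    rw [G.next_arr, G.next_arr, G.ed_leave, G.ed_leave] at hn
    rw [hs.2 x y he hn, hdir]
  ap_r := G.ap_rev
  ap_ed d d' h h' := by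
    unfold Ap
    rw [G.dir_eq hl d d' h h', h]
  fan_l := G.fan_l hl hf
  fan_r := G.fan_r hl hf
  sg_n := G.sg_next
  vert := G.vert_ind
  lensA := G.lensA hh
  lensS := G.lensS hh
  nodeg := G.nodeg h3

end Pool.Agent.Q238.FP.Drawing
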