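import Pool.Agent.Q238.FP.Weight

/-!
# The weight of a cell
-/

set_option autoImplicit false

namespace Pool.Agent.Q238.FP.Core

variable {D E V : Type} (C : Core D E V)

theorem OS_x5 {d : D} (h : C.n (C.n (C.n (C.n (C.n d)))) = d) (hx : ∀ j, 0 < C.mu (C.n^[j] d)) :
    20 ≤ C.OS 5 d := by
  have h0 := hx 0
  have h1 := hx 1
  have h2 := hx 2
  have h3 := hx 3
  have h4 := hx 4
  simp only [Function.iterate_succ_apply', Function.iterate_zero, id_eq] at h0 h1 h2 h3 h4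
  have p1 : ¬ C.P (C.n d) := fun hP => C.f5 h h0 h1 h2 h3 h4 hP
  have p2 : ¬ C.P (C.n (C.n d)) := fun hP => C.f5 (by rw [h]) h1 h2 h3 h4 (by rwa [h]) hP
  have p3 : ¬ C.P (C.n (C.n (C.n d))) := fun hP =>
    C.f5 (by rw [h]) h2 h3 h4 (by rwa [h]) (by rwa [h]) hP
  have p4 : ¬ C.P (C.n (C.n (C.n (C.n d)))) := fun hP =>
    C.f5 (by rw [h]) h3 h4 (by rwa [h]) (by rwa [h]) (by rwa [h]) hP
  have p0 : ¬ C.P d := fun hP =>
    C.f5 (d := C.n (C.n (C.n (C.n d)))) (by rw [h]) h4 (by rwa [h]) (by rwa [h]) (by rwa [h])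
      (by rwa [h]) (by rwa [h])
  have hp : C.p d = C.n (C.n (C.n (C.n d))) := C.n_inj (by rw [C.n_p, h])
  unfold OS
  simp only [Finset.sum_range_succ, Finset.sum_range_zero, Function.iterate_succ_apply',
    Function.iterate_zero, id_eq]
  have g0 : 4 ≤ C.W d := C.W_ge4 (C.not_DW (by rwa [hp]) p0) (C.not_DE p1 p0)
  have g1 : 4 ≤ C.W (C.n d) := C.W_ge4 (C.not_DW (by rwa [C.p_n]) p1) (C.not_DE p2 p1)
  have g2 : 4 ≤ C.W (C.n (C.n d)) := C.W_ge4 (C.not_DW (by rwa [C.p_n]) p2) (C.not_DE p3 p2)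
  have g3 : 4 ≤ C.W (C.n (C.n (C.n d))) :=
    C.W_ge4 (C.not_DW (by rwa [C.p_n]) p3) (C.not_DE p4 p3)
  have g4 : 4 ≤ C.W (C.n (C.n (C.n (C.n d)))) :=
    C.W_ge4 (C.not_DW (by rwa [C.p_n]) p4) (C.not_DE (by rwa [h]) p4)
  linarith

theorem OS_x6 {d : D} (h : C.n (C.n (C.n (C.n (C.n (C.n d))))) = d)
    (hx : ∀ j, 0 < C.mu (C.n^[j] d)) : 20 ≤ C.OS 6 d := by
  have h0 := hx 0
  have h1 := hx 1
  have h2 := hx 2
  have h3 := hx 3
  have h4 := hx 4
  have h5 := hx 5
  simp only [Function.iterate_succ_apply', Function.iterate_zero, id_eq] at h0 h1 h2 h3 h4 h5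
  have p1 : ¬ C.P (C.n d) := fun hP => C.f6 h h0 h1 h2 h3 h4 h5 hP
  have p2 : ¬ C.P (C.n (C.n d)) := fun hP => C.f6 (by rw [h]) h1 h2 h3 h4 h5 (by rwa [h]) hP
  have p3 : ¬ C.P (C.n (C.n (C.n d))) := fun hP =>
    C.f6 (by rw [h]) h2 h3 h4 h5 (by rwa [h]) (by rwa [h]) hP
  have p4 : ¬ C.P (C.n (C.n (C.n (C.n d)))) := fun hP =>
    C.f6 (by rw [h]) h3 h4 h5 (by rwa [h]) (by rwa [h]) (by rwa [h]) hP
  have p5 : ¬ C.P (C.n (C.n (C.n (C.n (C.n d))))) := fun hP =>
    C.f6 (by rw [h]) h4 h5 (by rwa [h]) (by rwa [h]) (by rwa [h]) (by rwa [h]) hP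
  unfold OS
  simp only [Finset.sum_range_succ, Finset.sum_range_zero, Function.iterate_succ_apply',
    Function.iterate_zero, id_eq]
  have k0 := C.W_ge2 d
  have k1 := C.W_ge2 (C.n d)
  have g2 : 4 ≤ C.W (C.n (C.n d)) := C.W_ge4 (C.not_DW (by rwa [C.p_n]) p2) (C.not_DE p3 p2)
  have g3 : 4 ≤ C.W (C.n (C.n (C.n d))) :=
    C.W_ge4 (C.not_DW (by rwa [C.p_n]) p3) (C.not_DE p4 p3)
  have g4 : 4 ≤ C.W (C.n (C.n (C.n (C.n d)))) :=
    C.W_ge4 (C.not_DW (by rwa [C.p_n]) p4) (C.not_DE p5 p4)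
  have g5 : 4 ≤ C.W (C.n (C.n (C.n (C.n (C.n d))))) :=
    le_trans (by norm_num) (C.W_ge4 (C.not_DW (by rwa [C.p_n]) p5) (C.not_DE (by
      rw [h]
      exact fun hP => C.f6 (d := C.n (C.n (C.n (C.n (C.n d))))) (by rw [h]) h5 (by rwa [h])
        (by rwa [h]) (by rwa [h]) (by rwa [h]) (by rwa [h]) (by rwa [h])) p5))
  linarith

open Classical in
/-- the two demands at a dart of a cell -/
theorem demands (d : D) : ∃ w e : ℕ → ℤ, (∀ j, 0 ≤ w j ∧ 0 ≤ e j ∧ w j ≤ 1 ∧ e j ≤ 1) ∧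
    (∀ j, 4 - w j - e j ≤ C.W (C.n^[j] d)) ∧
    (∀ j, ¬ C.T (C.n^[j] d) → w j = 0 ∧ e j = 0) ∧
    (∀ j, ¬ C.P (C.n^[j] d) → ¬ C.P (C.n^[j + 1] d) → e j = 0 ∧ w (j + 1) = 0) ∧
    ∀ k, C.n^[k] d = d → ∀ j, w (j + k) = w j ∧ e (j + k) = e j := by
  refine ⟨fun j => if C.DW (C.n^[j] d) then 1 else 0, fun j => if C.DE (C.n^[j] d) then 1 else 0,
    fun j => ?_, fun j => C.W_ge _, fun j h => ?_, fun j h h' => ?_, fun k hk j => ?_⟩
  · refine ⟨?_, ?_, ?_, ?_⟩ <;> dsimp only <;> split_ifs <;> norm_num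
  · exact ⟨if_neg (fun h' => h h'.1), if_neg (fun h' => h h'.1)⟩
  · rw [Function.iterate_succ_apply'] at h'
    constructor
    · exact if_neg (C.not_DE h' h)
    · dsimp only
      rw [Function.iterate_succ_apply']
      exact if_neg (C.not_DW (by rwa [C.p_n]) h')
  · dsimp only
    rw [Function.iterate_add_apply, hk]
    exact ⟨rfl, rfl⟩

theorem window (P : ℕ → Prop) (i : ℕ) (h1 : ¬ (P i ∧ P (i + 2))) (h2 : ¬ (P (i + 1) ∧ P (i + 3)))
    (h3 : ¬ (P (i + 2) ∧ P (i + 4))) : ∃ j, i ≤ j ∧ j ≤ i + 3 ∧ ¬ P j ∧ ¬ P (j + 1) := by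
  by_cases a0 : P i
  · have a2 : ¬ P (i + 2) := fun h => h1 ⟨a0, h⟩
    by_cases a1 : P (i + 1)
    · exact ⟨i + 2, by omega, by omega, a2, fun h => h2 ⟨a1, h⟩⟩
    · exact ⟨i + 1, by omega, by omega, a1, a2⟩
  · by_cases a1 : P (i + 1)
    · have a3 : ¬ P (i + 3) := fun h => h2 ⟨a1, h⟩
      by_cases a2 : P (i + 2)
      · exact ⟨i + 3, by omega, by omega, a3, fun h => h3 ⟨a2, h⟩⟩
      · exact ⟨i + 2, by omega, by omega, a2, a3⟩
    · exact ⟨i, by omega, by omega, a0, a1⟩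

theorem J_iter {d : D} (h4 : ∀ j, C.n^[4] (C.n^[j] d) ≠ C.n^[j] d) (j : ℕ)
    (h0 : C.T (C.n^[j] d)) (h1 : C.T (C.n^[j + 2] d)) (h2 : C.T (C.n^[j + 4] d)) :
    ¬ (C.P (C.n^[j] d) ∧ C.P (C.n^[j + 2] d)) := by
  rintro ⟨h5, h6⟩
  simp only [Function.iterate_succ_apply'] at h1 h2 h6
  refine h4 j ?_
  simp only [Function.iterate_succ_apply', Function.iterate_zero, id_eq]
  exact C.J h0 h1 h2 h5 h6

theorem OS_x7 {d : D} (h : C.n^[7] d = d) (hx : ∀ j, 0 < C.mu (C.n^[j] d)) :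
    20 ≤ C.OS 7 d := by
  have key : ∀ d : D, C.n^[7] d = d → (∀ j, 0 < C.mu (C.n^[j] d)) → C.P d → 20 ≤ C.OS 7 d := by
    intro d h hx hP
    obtain ⟨w, e, hb, hW, -, hz, hp⟩ := C.demands d
    have hf : ∀ j, C.n (C.n (C.n (C.n (C.n (C.n (C.n (C.n^[j] d))))))) = C.n^[j] d := by
      intro j
      have := C.iter_n h j
      simpa only [Function.iterate_succ_apply', Function.iterate_zero, id_eq] using this
    have hm : ∀ j, 0 < C.mu (C.n^[j] d) := hx
    have q2 : ∀ j, C.P (C.n^[j + 1] d) → ¬ C.P (C.n^[j + 3] d) := by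
      intro j h1 h2
      have e0 := hm j
      have e1 := hm (j + 1)
      have e2 := hm (j + 2)
      have e3 := hm (j + 3)
      have e4 := hm (j + 4)
      have e5 := hm (j + 5)
      have e6 := hm (j + 6)
      simp only [Function.iterate_succ_apply'] at e1 e2 e3 e4 e5 e6 h1 h2
      exact C.f7a (hf j) e0 e1 e2 e3 e4 e5 e6 h1 h2
    have q3 : ∀ j, C.P (C.n^[j + 1] d) → ¬ C.P (C.n^[j + 4] d) := by
      intro j h1 h2
      have e0 := hm j
      have e1 := hm (j + 1)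
      have e2 := hm (j + 2)
      have e3 := hm (j + 3)
      have e4 := hm (j + 4)
      have e5 := hm (j + 5)
      have e6 := hm (j + 6)
      simp only [Function.iterate_succ_apply'] at e1 e2 e3 e4 e5 e6 h1 h2
      exact C.f7b (hf j) e0 e1 e2 e3 e4 e5 e6 h1 h2
    have hP7 : C.P (C.n^[6 + 1] d) := by rw [show 6 + 1 = 7 from rfl, h]; exact hP
    have n9 := q2 6 hP7
    have n10 := q3 6 hP7
    have e9 : C.n^[6 + 3] d = C.n^[2] d := by
      rw [show 6 + 3 = 2 + 7 from rfl, Function.iterate_add_apply, h]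
    have e10 : C.n^[6 + 4] d = C.n^[3] d := by
      rw [show 6 + 4 = 3 + 7 from rfl, Function.iterate_add_apply, h]
    rw [e9] at n9
    rw [e10] at n10
    have n4 : ¬ C.P (C.n^[4] d) := fun h1 => q3 3 h1 hP7
    have n5 : ¬ C.P (C.n^[5] d) := fun h1 => q2 4 h1 hP7
    have z2 := hz 2 n9 n10
    have z3 := hz 3 n10 n4
    have z4 := hz 4 n4 n5
    have w0 := hW 0
    have w1 := hW 1
    have w2 := hW 2
    have w3 := hW 3
    have w4 := hW 4
    have w5 := hW 5
    have w6 := hW 6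
    have b0 := hb 0
    have b1 := hb 1
    have b2 := hb 2
    have b5 := hb 5
    have b6 := hb 6
    unfold OS
    simp only [Finset.sum_range_succ, Finset.sum_range_zero]
    norm_num at z2 z3 z4
    omega
  by_cases hP : ∃ j, C.P (C.n^[j] d)
  · obtain ⟨j, hj⟩ := hP
    rw [← C.OS_iter h j]
    refine key _ (C.iter_n h j) (fun i => ?_) hj
    rw [← Function.iterate_add_apply]
    exact hx _
  · push Not at hP
    unfold OS
    have := Finset.card_nsmul_le_sum (Finset.range 7) (fun i => C.W (C.n^[i] d)) 4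
      (fun i _ => C.W_ge4 (C.not_DW (fun h1 => hP (i + 6) (by
        have h2 : C.n^[i + 6] d = C.p (C.n^[i] d) := by
          apply C.n_inj
          rw [C.n_p, ← Function.iterate_succ_apply' C.n, show (i + 6).succ = i + 7 from rfl,
            Function.iterate_add_apply, h]
        rw [h2]
        exact h1)) (hP i)) (C.not_DE (by
          have := hP (i + 1)
          rwa [Function.iterate_succ_apply'] at this) (hP i)))
    simp only [Finset.card_range, nsmul_eq_mul] at this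
    push_cast at this
    linarith

theorem OS_x8 {d : D} (h : C.n^[8] d = d) (h4 : ∀ j, C.n^[4] (C.n^[j] d) ≠ C.n^[j] d) :
    20 ≤ C.OS 8 d := by
  have key : ∀ d : D, C.n^[8] d = d → (∀ j, C.n^[4] (C.n^[j] d) ≠ C.n^[j] d) → ¬ C.T d →
      20 ≤ C.OS 8 d := by
    intro d h h4 hT
    obtain ⟨w, e, hb, hW, hwT, hz, hp⟩ := C.demands d
    have t0 := hwT 0 hT
    have w0 := hW 0
    have w1 := hW 1
    have w2 := hW 2
    have w3 := hW 3
    have w4 := hW 4
    have w5 := hW 5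
    have w6 := hW 6
    have w7 := hW 7
    have b1 := hb 1
    have b2 := hb 2
    have b3 := hb 3
    have b4 := hb 4
    have b5 := hb 5
    have b6 := hb 6
    have b7 := hb 7
    unfold OS
    simp only [Finset.sum_range_succ, Finset.sum_range_zero]
    by_cases hT' : ∃ j, 1 ≤ j ∧ j ≤ 7 ∧ ¬ C.T (C.n^[j] d)
    · obtain ⟨j, hj1, hj2, hj⟩ := hT'
      have hj' := hwT j hj
      interval_cases j <;> omega
    · push Not at hT'
      have T1 := hT' 1 (by norm_num) (by norm_num)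
      have T2 := hT' 2 (by norm_num) (by norm_num)
      have T3 := hT' 3 (by norm_num) (by norm_num)
      have T4 := hT' 4 (by norm_num) (by norm_num)
      have T5 := hT' 5 (by norm_num) (by norm_num)
      have T6 := hT' 6 (by norm_num) (by norm_num)
      have T7 := hT' 7 (by norm_num) (by norm_num)
      obtain ⟨j, hj1, hj2, hj3, hj4⟩ := window (fun i => C.P (C.n^[i] d)) 1
        (C.J_iter h4 1 T1 T3 T5) (C.J_iter h4 2 T2 T4 T6) (C.J_iter h4 3 T3 T5 T7)
      have hj' := hz j hj3 hj4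
      interval_cases j <;> norm_num at hj' <;> omega
  by_cases hT : ∃ j, ¬ C.T (C.n^[j] d)
  · obtain ⟨j, hj⟩ := hT
    rw [← C.OS_iter h j]
    refine key _ (C.iter_n h j) (fun i => ?_) hj
    rw [← Function.iterate_add_apply C.n i j]
    exact h4 _
  · push Not at hT
    obtain ⟨w, e, hb, hW, hwT, hz, hp⟩ := C.demands d
    have w0 := hW 0
    have w1 := hW 1
    have w2 := hW 2
    have w3 := hW 3
    have w4 := hW 4
    have w5 := hW 5
    have w6 := hW 6
    have w7 := hW 7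
    have b0 := hb 0
    have b1 := hb 1
    have b2 := hb 2
    have b3 := hb 3
    have b4 := hb 4
    have b5 := hb 5
    have b6 := hb 6
    have b7 := hb 7
    have p0 := hp 8 h 0
    have hJ : ∀ j, ¬ (C.P (C.n^[j] d) ∧ C.P (C.n^[j + 2] d)) := fun j =>
      C.J_iter h4 j (hT _) (hT _) (hT _)
    unfold OS
    simp only [Finset.sum_range_succ, Finset.sum_range_zero]
    obtain ⟨j, hj1, hj2, hj3, hj4⟩ := window (fun i => C.P (C.n^[i] d)) 0 (hJ 0) (hJ 1) (hJ 2)
    obtain ⟨i, hi1, hi2, hi3, hi4⟩ := window (fun i => C.P (C.n^[i] d)) 4 (hJ 4) (hJ 5) (hJ 6)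
    have hj' := hz j hj3 hj4
    have hi' := hz i hi3 hi4
    clear hj3 hj4 hi3 hi4
    interval_cases j <;> interval_cases i <;> norm_num at hi' hj' p0 <;> omega

theorem OS_x9 {d : D} (h : C.n^[9] d = d) (h4 : ∀ j, C.n^[4] (C.n^[j] d) ≠ C.n^[j] d) :
    20 ≤ C.OS 9 d := by
  have key : ∀ d : D, ¬ C.T d → 20 ≤ C.OS 9 d := by
    intro d hT
    obtain ⟨w, e, hb, hW, hwT, -, -⟩ := C.demands d
    have t0 := hwT 0 hT
    have w0 := hW 0
    have w1 := hW 1
    have w2 := hW 2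
    have w3 := hW 3
    have w4 := hW 4
    have w5 := hW 5
    have w6 := hW 6
    have w7 := hW 7
    have w8 := hW 8
    have b1 := hb 1
    have b2 := hb 2
    have b3 := hb 3
    have b4 := hb 4
    have b5 := hb 5
    have b6 := hb 6
    have b7 := hb 7
    have b8 := hb 8
    unfold OS
    simp only [Finset.sum_range_succ, Finset.sum_range_zero]
    omega
  by_cases hT : ∃ j, ¬ C.T (C.n^[j] d)
  · obtain ⟨j, hj⟩ := hT
    rw [← C.OS_iter h j]
    exact key _ hj
  · push Not at hT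
    obtain ⟨w, e, hb, hW, hwT, hz, hp⟩ := C.demands d
    have w0 := hW 0
    have w1 := hW 1
    have w2 := hW 2
    have w3 := hW 3
    have w4 := hW 4
    have w5 := hW 5
    have w6 := hW 6
    have w7 := hW 7
    have w8 := hW 8
    have b0 := hb 0
    have b1 := hb 1
    have b2 := hb 2
    have b3 := hb 3
    have b4 := hb 4
    have b5 := hb 5
    have b6 := hb 6
    have b7 := hb 7
    have b8 := hb 8
    have hJ : ∀ j, ¬ (C.P (C.n^[j] d) ∧ C.P (C.n^[j + 2] d)) := fun j =>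
      C.J_iter h4 j (hT _) (hT _) (hT _)
    unfold OS
    simp only [Finset.sum_range_succ, Finset.sum_range_zero]
    obtain ⟨j, hj1, hj2, hj3, hj4⟩ := window (fun i => C.P (C.n^[i] d)) 0 (hJ 0) (hJ 1) (hJ 2)
    have hj' := hz j hj3 hj4
    clear hj3 hj4
    interval_cases j <;> norm_num at hj' <;> omega

theorem iter_inj (j : ℕ) {a b : D} (h : C.n^[j] a = C.n^[j] b) : a = b := by
  induction j with
  | zero => exact h
  | succ j ih =>
    rw [Function.iterate_succ_apply', Function.iterate_succ_apply'] at h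
    exact ih (C.n_inj h)

theorem iter_ne {d : D} {i : ℕ} (h : C.n^[i] d ≠ d) (j : ℕ) : C.n^[i] (C.n^[j] d) ≠ C.n^[j] d := by
  intro h'
  apply h
  apply C.iter_inj j
  rw [← Function.iterate_add_apply, Nat.add_comm, Function.iterate_add_apply, h']

theorem sg_iter (d : D) (j : ℕ) : C.sg (C.n^[j] d) ↔ C.sg d := by
  induction j with
  | zero => rfl
  | succ j ih => rw [Function.iterate_succ_apply', C.sg_n, ih]

/-- The total weight of a simply bounded cell is at least `20`. -/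
theorem orbit_ge {d : D} {k : ℕ} (hs : C.sg d) (hk : 0 < k) (h : C.n^[k] d = d)
    (hmin : ∀ j, 0 < j → j < k → C.n^[j] d ≠ d) : 20 ≤ C.OS k d := by
  have hk1 : k ≠ 1 := by
    rintro rfl
    exact C.no1 d h
  have hk2 : k ≠ 2 := by
    rintro rfl
    exact C.no2 hs h
  by_cases hT : ∃ i, C.Tri (C.n^[i] d)
  · obtain ⟨i, hi⟩ := hT
    have h3 : ¬ C.n^[3] d ≠ d := fun h' => C.iter_ne h' i hi.2.1
    have hk3 : k = 3 := by
      by_contra hne
      exact h3 (hmin 3 (by norm_num) (by omega))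
    subst hk3
    rw [← C.OS_iter h i]
    exact C.OS_tri hi
  by_cases hS : ∃ i, C.Sq (C.n^[i] d)
  · obtain ⟨i, hi⟩ := hS
    have h3 : ¬ C.n^[4] d ≠ d := fun h' => C.iter_ne h' i hi.2.1
    have hk3 : k = 4 := by
      by_contra hne
      rcases Nat.lt_or_ge 4 k with h5 | h5
      · exact h3 (hmin 4 (by norm_num) h5)
      · have hk4 : k = 3 := by omega
        subst hk4
        apply h3
        intro h6
        rw [Function.iterate_succ_apply', h] at h6
        exact C.no1 d h6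
    subst hk3
    rw [← C.OS_iter h i]
    exact C.OS_sq hi
  push Not at hT hS
  by_cases hR : ∃ i, C.mu (C.r (C.n^[i] d)) = 0
  · obtain ⟨i, hi⟩ := hR
    rw [← C.OS_iter h i]
    have h' := C.iter_n h i
    have hs' := (C.sg_iter d i).2 hs
    have hT' := hT (i + 1)
    rw [Function.iterate_succ_apply'] at hT'
    set d' := C.n^[i] d
    rcases Nat.lt_or_ge k 6 with h6 | h6
    · have : k = 3 ∨ k = 4 ∨ k = 5 := by omega
      rcases this with rfl | rfl | rfl
      · exact C.OS_real3 hs' h' hi hT'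
      · exact C.OS_real4 h' hi
      · exact C.OS_real5 h' hi
    · obtain ⟨m, rfl⟩ : ∃ m, k = m + 6 := ⟨k - 6, by omega⟩
      exact C.OS_real6 h' hi
  · have hx : ∀ j, 0 < C.mu (C.n^[j] d) := by
      intro j
      by_contra h0
      apply hR
      refine ⟨j + 1, ?_⟩
      rw [Function.iterate_succ_apply', ← C.real_mu]
      omega
    rcases Nat.lt_or_ge k 10 with h10 | h10
    · have : k = 3 ∨ k = 4 ∨ k = 5 ∨ k = 6 ∨ k = 7 ∨ k = 8 ∨ k = 9 := by omega
      rcases this with rfl | rfl | rfl | rfl | rfl | rfl | rfl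
      · exfalso
        have h0 := hx 0
        have h1 := hx 1
        have h2 := hx 2
        simp only [Function.iterate_succ_apply', Function.iterate_zero, id_eq] at h0 h1 h2
        exact C.no3 h h0 h1 h2
      · exfalso
        apply hS 0
        have h0 := hx 0
        have h1 := hx 1
        have h2 := hx 2
        have h3 := hx 3
        simp only [Function.iterate_succ_apply', Function.iterate_zero, id_eq] at h0 h1 h2 h3 ⊢
        exact ⟨hs, h, h0, h1, h2, h3⟩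
      · exact C.OS_x5 h hx
      · exact C.OS_x6 h hx
      · exact C.OS_x7 h hx
      · exact C.OS_x8 h (C.iter_ne (hmin 4 (by norm_num) (by norm_num)))
      · exact C.OS_x9 h (C.iter_ne (hmin 4 (by norm_num) (by norm_num)))
    · obtain ⟨m, rfl⟩ : ∃ m, k = m + 10 := ⟨k - 10, by omega⟩
      exact C.OS_ge10 d

end Pool.Agent.Q238.FP.Core
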