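import Pool.Agent.Q238.FP.Core

/-!
# Strips of quadrilateral cells
-/

set_option autoImplicit false

namespace Pool.Agent.Q238.FP.Core

variable {D E V : Type} (C : Core D E V)

/-- both ends are crossing points -/
def XX (d : D) : Prop := 0 < C.mu d ∧ 0 < C.mu (C.r d)

/-- the base of a triangle -/
def Tri (b : D) : Prop := C.sg b ∧ C.n (C.n (C.n b)) = b ∧ C.XX b ∧ C.mu (C.n b) = 0

/-- a side of a quadrilateral -/
def Sq (d : D) : Prop := C.sg d ∧ C.n (C.n (C.n (C.n d))) = d ∧ 0 < C.mu d ∧ 0 < C.mu (C.n d) ∧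
  0 < C.mu (C.n (C.n d)) ∧ 0 < C.mu (C.n (C.n (C.n d)))

/-- an inner side of a big cell -/
def Big (d : D) : Prop := C.XX d ∧ ¬ C.Tri d ∧ ¬ C.Sq d

/-- the next cell of a strip -/
def nx (t : D) : D := C.r (C.n (C.n t))

theorem xx_r (d : D) : C.XX (C.r d) ↔ C.XX d := by
  unfold XX
  rw [C.r_r, and_comm]

theorem xx_iff_p (d : D) : C.XX d ↔ 0 < C.mu d ∧ 0 < C.mu (C.p d) := by
  unfold XX
  rw [C.mu_p_pos]

theorem Sq.n_ {d : D} (h : C.Sq d) : C.Sq (C.n d) := by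
  obtain ⟨h0, h1, h2, h3, h4, h5⟩ := h
  refine ⟨by simpa using h0, by rw [h1], h3, h4, h5, by rw [h1]; exact h2⟩

theorem Sq.p_eq {d : D} (h : C.Sq d) : C.p d = C.n (C.n (C.n d)) := by
  conv_lhs => rw [← h.2.1]
  rw [C.p_n]

theorem sq_n (d : D) : C.Sq (C.n d) ↔ C.Sq d := by
  constructor
  · intro h
    have h1 := h.2.1
    have h2 : C.n (C.n (C.n (C.n d))) = d := C.n_inj h1
    have := h.n_.n_.n_
    rwa [h2] at this
  · exact fun h => h.n_

theorem sq_p (d : D) : C.Sq (C.p d) ↔ C.Sq d := by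
  rw [← C.sq_n, C.n_p]

theorem Sq.xx {d : D} (h : C.Sq d) : C.XX d := by
  rw [C.xx_iff_p]
  refine ⟨h.2.2.1, ?_⟩
  rw [h.p_eq]
  exact h.2.2.2.2.2

/-- the end of a strip exists -/
theorem nx_n (t : D) : C.n (C.nx t) = C.st (C.n t) := rfl

theorem Sq.nx_p {t : D} (h : C.Sq t) : C.p (C.nx t) = C.bk (C.p t) := by
  unfold nx
  rw [C.p_r _ h.2.2.2.2.1, h.p_eq]
  rfl

theorem Sq.mu_rp {t : D} (h : C.Sq t) : 0 < C.mu (C.r (C.p t)) := by
  rw [← C.mu_p_pos]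
  exact ((C.sq_p _).2 ((C.sq_p _).2 h)).2.2.1

theorem Sq.nx_mu_n {t : D} (h : C.Sq t) : C.mu (C.n t) = C.mu (C.n (C.nx t)) + 1 :=
  C.mu_st _ h.2.2.2.1

theorem Sq.nx_ed_n {t : D} (h : C.Sq t) : C.ed (C.n (C.nx t)) = C.ed (C.n t) :=
  C.ed_st _ h.2.2.2.1

theorem Sq.nx_hv_n {t : D} (h : C.Sq t) : C.hv (C.n (C.nx t)) = C.hv (C.n t) :=
  C.hv_st _ h.2.2.2.1

theorem Sq.nx_mu_p {t : D} (h : C.Sq t) : C.mu (C.p (C.nx t)) = C.mu (C.p t) + 1 := by
  rw [h.nx_p, C.mu_bk _ h.mu_rp]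

theorem Sq.nx_ed_p {t : D} (h : C.Sq t) : C.ed (C.p (C.nx t)) = C.ed (C.p t) := by
  rw [h.nx_p, C.ed_bk _ h.mu_rp]

theorem Sq.nx_hv_p {t : D} (h : C.Sq t) : C.hv (C.p (C.nx t)) = C.hv (C.p t) := by
  rw [h.nx_p, C.hv_bk _ h.mu_rp]

theorem Sq.nx_xx {t : D} (h : C.Sq t) : C.XX (C.nx t) := by
  unfold nx
  rw [C.xx_r]
  exact h.n_.n_.xx

theorem Sq.r_nx {t : D} (h : C.Sq t) : C.Sq (C.r (C.nx t)) := by
  unfold nx
  rw [C.r_r]
  exact h.n_.n_

theorem Sq.nx_r_nx {t : D} (h : C.Sq t) : C.nx (C.r (C.nx t)) = C.r t := by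
  unfold nx
  rw [C.r_r, h.2.1]

/-- the cells of the strip behind `d` -/
def tt (d : D) (i : ℕ) : D := C.nx^[i] (C.r d)

@[simp] theorem tt_zero (d : D) : C.tt d 0 = C.r d := rfl

theorem tt_succ (d : D) (i : ℕ) : C.tt d (i + 1) = C.nx (C.tt d i) := by
  unfold tt
  rw [Function.iterate_succ_apply']

theorem mu_tt_n (d : D) (k : ℕ) (h : ∀ i < k, C.Sq (C.tt d i)) :
    C.mu (C.n (C.r d)) = C.mu (C.n (C.tt d k)) + k := by
  induction k with
  | zero => simp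
  | succ k ih =>
    rw [ih (fun i hi => h i (by omega)), C.tt_succ, (h k (by omega)).nx_mu_n]
    omega

theorem exists_end (d : D) : ∃ k, ¬ C.Sq (C.tt d k) := by
  by_contra hc
  push Not at hc
  have := C.mu_tt_n d (C.mu (C.n (C.r d)) + 1) (fun i _ => hc i)
  omega

open Classical in
/-- the number of quadrilaterals in the strip behind `d` -/
noncomputable def slen (d : D) : ℕ := Nat.find (C.exists_end d)

/-- the far end of the strip behind `d` -/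
noncomputable def far (d : D) : D := C.tt d (C.slen d)

theorem sq_tt {d : D} {i : ℕ} (h : i < C.slen d) : C.Sq (C.tt d i) := by
  classical
  unfold slen at h
  exact not_not.1 (Nat.find_min (C.exists_end d) h)

theorem not_sq_far (d : D) : ¬ C.Sq (C.far d) := by
  classical
  unfold far slen
  exact Nat.find_spec (C.exists_end d)

theorem slen_eq {d : D} {k : ℕ} (h : ∀ i < k, C.Sq (C.tt d i)) (h' : ¬ C.Sq (C.tt d k)) :
    C.slen d = k := by
  rcases lt_trichotomy (C.slen d) k with h1 | h1 | h1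
  · exact absurd (h _ h1) (C.not_sq_far d)
  · exact h1
  · exact absurd (C.sq_tt h1) h'

/-! ### the strip -/

theorem tt_xx {d : D} (hd : C.XX d) {i : ℕ} (h : i ≤ C.slen d) : C.XX (C.tt d i) := by
  cases i with
  | zero => simpa using (C.xx_r d).2 hd
  | succ i =>
    rw [C.tt_succ]
    exact (C.sq_tt (by omega)).nx_xx

theorem tt_ed_n {d : D} (hd : C.XX d) {i : ℕ} (h : i ≤ C.slen d) :
    C.ed (C.n (C.tt d i)) = C.ed (C.p d) := by
  induction i with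
  | zero => rw [tt_zero, ← C.st_p d, C.ed_st _ ((C.mu_p_pos d).2 hd.2)]
  | succ i ih => rw [C.tt_succ, (C.sq_tt (by omega)).nx_ed_n, ih (by omega)]

theorem tt_hv_n {d : D} (hd : C.XX d) {i : ℕ} (h : i ≤ C.slen d) :
    C.hv (C.n (C.tt d i)) = C.hv (C.p d) := by
  induction i with
  | zero => rw [tt_zero, ← C.st_p d, C.hv_st _ ((C.mu_p_pos d).2 hd.2)]
  | succ i ih => rw [C.tt_succ, (C.sq_tt (by omega)).nx_hv_n, ih (by omega)]

theorem tt_mu_n {d : D} (hd : C.XX d) {i : ℕ} (h : i ≤ C.slen d) :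
    C.mu (C.p d) = C.mu (C.n (C.tt d i)) + 1 + i := by
  induction i with
  | zero => rw [tt_zero, ← C.st_p d, C.mu_st _ ((C.mu_p_pos d).2 hd.2)]
  | succ i ih =>
    rw [C.tt_succ, ih (by omega), (C.sq_tt (by omega : i < C.slen d)).nx_mu_n]
    omega

theorem p_r_eq_bk {d : D} (hd : 0 < C.mu d) : C.p (C.r d) = C.bk (C.n d) := by
  rw [C.p_r d hd]
  rfl

theorem tt_ed_p {d : D} (hd : C.XX d) {i : ℕ} (h : i ≤ C.slen d) :
    C.ed (C.p (C.tt d i)) = C.ed (C.n d) := by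
  induction i with
  | zero => rw [tt_zero, C.p_r_eq_bk hd.1, C.ed_bk _ ((C.mu_rn_pos d).2 hd.1)]
  | succ i ih => rw [C.tt_succ, (C.sq_tt (by omega)).nx_ed_p, ih (by omega)]

theorem tt_hv_p {d : D} (hd : C.XX d) {i : ℕ} (h : i ≤ C.slen d) :
    C.hv (C.p (C.tt d i)) = C.hv (C.n d) := by
  induction i with
  | zero => rw [tt_zero, C.p_r_eq_bk hd.1, C.hv_bk _ ((C.mu_rn_pos d).2 hd.1)]
  | succ i ih => rw [C.tt_succ, (C.sq_tt (by omega)).nx_hv_p, ih (by omega)]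

theorem tt_mu_p {d : D} (hd : C.XX d) {i : ℕ} (h : i ≤ C.slen d) :
    C.mu (C.p (C.tt d i)) = C.mu (C.n d) + 1 + i := by
  induction i with
  | zero => rw [tt_zero, C.p_r_eq_bk hd.1, C.mu_bk _ ((C.mu_rn_pos d).2 hd.1)]
  | succ i ih =>
    rw [C.tt_succ, (C.sq_tt (by omega)).nx_mu_p, ih (by omega)]
    omega

theorem r_tt {d : D} {i : ℕ} : C.r (C.tt d (i + 1)) = C.n (C.n (C.tt d i)) := by
  rw [C.tt_succ]
  unfold nx
  rw [C.r_r]

theorem far_xx {d : D} (hd : C.XX d) : C.XX (C.far d) := C.tt_xx hd le_rfl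

theorem far_ed_n {d : D} (hd : C.XX d) : C.ed (C.n (C.far d)) = C.ed (C.p d) := C.tt_ed_n hd le_rfl

theorem far_hv_n {d : D} (hd : C.XX d) : C.hv (C.n (C.far d)) = C.hv (C.p d) := C.tt_hv_n hd le_rfl

theorem far_hv_rn {d : D} (hd : C.XX d) : C.hv (C.r (C.n (C.far d))) = C.hv (C.r (C.p d)) :=
  C.hv_r_of _ _ (C.far_ed_n hd) (C.far_hv_n hd)

theorem far_mu_n {d : D} (hd : C.XX d) :
    C.mu (C.p d) = C.mu (C.n (C.far d)) + 1 + C.slen d := C.tt_mu_n hd le_rfl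

theorem far_ed_p {d : D} (hd : C.XX d) : C.ed (C.p (C.far d)) = C.ed (C.n d) := C.tt_ed_p hd le_rfl

theorem far_hv_p {d : D} (hd : C.XX d) : C.hv (C.p (C.far d)) = C.hv (C.n d) := C.tt_hv_p hd le_rfl

theorem far_hv_rp {d : D} (hd : C.XX d) : C.hv (C.r (C.p (C.far d))) = C.hv (C.r (C.n d)) :=
  C.hv_r_of _ _ (C.far_ed_p hd) (C.far_hv_p hd)

theorem far_mu_p {d : D} (hd : C.XX d) :
    C.mu (C.p (C.far d)) = C.mu (C.n d) + 1 + C.slen d := C.tt_mu_p hd le_rfl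

/-- walking back along the strip -/
theorem tt_back {d : D} {j : ℕ} (hj : j ≤ C.slen d) :
    C.tt (C.far d) j = C.r (C.tt d (C.slen d - j)) := by
  induction j with
  | zero => rfl
  | succ j ih =>
    rw [C.tt_succ, ih (by omega)]
    obtain ⟨m, hm⟩ : ∃ m, C.slen d - j = m + 1 := ⟨C.slen d - j - 1, by omega⟩
    rw [hm, show C.slen d - (j + 1) = m by omega, C.tt_succ]
    exact (C.sq_tt (by omega)).nx_r_nx

theorem slen_far {d : D} (hd : ¬ C.Sq d) : C.slen (C.far d) = C.slen d := by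
  apply C.slen_eq
  · intro i hi
    rw [C.tt_back (by omega)]
    obtain ⟨m, hm⟩ : ∃ m, C.slen d - i = m + 1 := ⟨C.slen d - i - 1, by omega⟩
    rw [hm, C.tt_succ]
    exact (C.sq_tt (by omega)).r_nx
  · rw [C.tt_back le_rfl, Nat.sub_self, C.tt_zero, C.r_r]
    exact hd

theorem far_far {d : D} (hd : ¬ C.Sq d) : C.far (C.far d) = d := by
  unfold far
  rw [show C.slen (C.tt d (C.slen d)) = C.slen d from C.slen_far hd]
  have := C.tt_back (d := d) le_rfl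
  unfold far at this
  rw [this, Nat.sub_self, C.tt_zero, C.r_r]

/-! ### triangles -/

theorem Tri.not_sq {b : D} (h : C.Tri b) : ¬ C.Sq b := by
  intro h'
  have := h'.2.2.2.1
  have := h.2.2.2
  omega

theorem Tri.p_eq {b : D} (h : C.Tri b) : C.p b = C.n (C.n b) := by
  conv_lhs => rw [← h.2.1]
  rw [C.p_n]

theorem Tri.mu_rp {b : D} (h : C.Tri b) : C.mu (C.r (C.p b)) = 0 := by
  rw [← C.mu_p, h.p_eq, C.p_n]
  exact h.2.2.2

theorem Tri.hv_rp {b : D} (h : C.Tri b) : C.hv (C.r (C.p b)) = C.hv (C.n b) := by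
  rw [← C.hv_p _ h.mu_rp, h.p_eq, C.p_n]

/-- two bases in one triangle -/
theorem Tri.unique {b b' : D} (h : C.Tri b) (h' : C.Tri b')
    (hh : b' = b ∨ b' = C.n b ∨ b' = C.n (C.n b)) : b' = b := by
  rcases hh with hh | hh | hh
  · exact hh
  · exfalso
    have h1 := h'.2.2.1.1
    rw [hh] at h1
    have := h.2.2.2
    omega
  · exfalso
    have h1 := h'.2.2.1.2
    rw [hh, ← C.mu_p_pos, C.p_n] at h1
    have := h.2.2.2
    omega

end Pool.Agent.Q238.FP.Core
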