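import Pool.Agent.Q238.FP.Mir

/-!
# A strip does not connect two triangles
-/

set_option autoImplicit false

namespace Pool.Agent.Q238.FP.Core

variable {D E V : Type} (C : Core D E V)

/-- the darts of the strip behind `b`, with the triangles at its ends -/
def strip (b x : D) : Prop := x = C.n b ∨ x = C.p b ∨ ∃ i ≤ C.slen b,
  x = C.tt b i ∨ x = C.r (C.tt b i) ∨ x = C.n (C.tt b i) ∨ x = C.p (C.tt b i)

theorem strip_n {b : D} (hb : C.Tri b) (ht : C.Tri (C.far b)) {x : D} (h : C.strip b x) :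
    C.strip b (C.n x) := by
  rcases h with rfl | rfl | ⟨i, hi, rfl | rfl | rfl | rfl⟩
  · exact Or.inr (Or.inl hb.p_eq.symm)
  · refine Or.inr (Or.inr ⟨0, by omega, Or.inr (Or.inl ?_)⟩)
    simp
  · exact Or.inr (Or.inr ⟨i, hi, Or.inr (Or.inr (Or.inl rfl))⟩)
  · cases i with
    | zero => exact Or.inl (by simp)
    | succ i =>
      refine Or.inr (Or.inr ⟨i, by omega, Or.inr (Or.inr (Or.inr ?_))⟩)
      rw [C.r_tt, (C.sq_tt (by omega : i < C.slen b)).p_eq]
  · rcases Nat.lt_or_ge i (C.slen b) with h1 | h1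
    · refine Or.inr (Or.inr ⟨i + 1, h1, Or.inr (Or.inl ?_)⟩)
      rw [C.r_tt]
    · have h2 : i = C.slen b := by omega
      subst h2
      exact Or.inr (Or.inr ⟨_, le_rfl, Or.inr (Or.inr (Or.inr ht.p_eq.symm))⟩)
  · refine Or.inr (Or.inr ⟨i, hi, Or.inl ?_⟩)
    simp

theorem strip_p {b : D} (hb : C.Tri b) (ht : C.Tri (C.far b)) {x : D} (h : C.strip b x) :
    C.strip b (C.p x) := by
  rcases h with rfl | rfl | ⟨i, hi, rfl | rfl | rfl | rfl⟩
  · refine Or.inr (Or.inr ⟨0, by omega, Or.inr (Or.inl ?_)⟩)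
    simp
  · refine Or.inl ?_
    rw [hb.p_eq, C.p_n]
  · exact Or.inr (Or.inr ⟨i, hi, Or.inr (Or.inr (Or.inr rfl))⟩)
  · cases i with
    | zero => exact Or.inr (Or.inl (by simp))
    | succ i =>
      refine Or.inr (Or.inr ⟨i, by omega, Or.inr (Or.inr (Or.inl ?_))⟩)
      rw [C.r_tt, C.p_n]
  · refine Or.inr (Or.inr ⟨i, hi, Or.inl ?_⟩)
    simp
  · rcases Nat.lt_or_ge i (C.slen b) with h1 | h1
    · refine Or.inr (Or.inr ⟨i + 1, h1, Or.inr (Or.inl ?_)⟩)
      rw [C.r_tt, (C.sq_tt h1).p_eq, C.p_n]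
    · have h2 : i = C.slen b := by omega
      subst h2
      refine Or.inr (Or.inr ⟨_, le_rfl, Or.inr (Or.inr (Or.inl ?_))⟩)
      have := ht.p_eq
      unfold far at this
      rw [this, C.p_n]

theorem strip_sg {b : D} (hb : C.Tri b) (ht : C.Tri (C.far b)) {x : D} (h : C.strip b x) :
    C.sg x := by
  have key : ∀ i ≤ C.slen b, C.sg (C.tt b i) := by
    intro i hi
    rcases Nat.lt_or_ge i (C.slen b) with h1 | h1
    · exact (C.sq_tt h1).1
    · have h2 : i = C.slen b := by omega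
      subst h2
      exact ht.1
  rcases h with rfl | rfl | ⟨i, hi, rfl | rfl | rfl | rfl⟩
  · simpa using hb.1
  · rw [C.sg_p]; exact hb.1
  · exact key i hi
  · cases i with
    | zero => simpa using hb.1
    | succ i =>
      rw [C.r_tt, C.sg_n, C.sg_n]
      exact key i (by omega)
  · rw [C.sg_n]; exact key i hi
  · rw [C.sg_p]; exact key i hi

/-- the edges of the two long sides are different -/
theorem Tri.ed_ne {b : D} (hb : C.Tri b) : C.ed (C.n b) ≠ C.ed (C.p b) := fun h =>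
  C.ed_p_ne hb.2.2.1 h.symm

theorem strip_ed_f {b : D} (hb : C.Tri b) {x : D} (h : C.strip b x)
    (he : C.ed x = C.ed (C.n b)) : C.hv x = C.hv (C.n b) := by
  have hx := hb.2.2.1
  rcases h with rfl | rfl | ⟨i, hi, rfl | rfl | rfl | rfl⟩
  · rfl
  · exact absurd he.symm hb.ed_ne
  · exfalso
    rw [← C.tt_ed_p hx hi] at he
    have h1 := C.ed_n_ne (C.p (C.tt b i)) ((C.mu_p_pos _).2 (C.tt_xx hx hi).2)
    rw [C.n_p] at h1
    exact h1 he
  · exfalso
    rw [← C.tt_ed_p hx hi, C.ed_r] at he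
    have h1 := C.ed_n_ne (C.p (C.tt b i)) ((C.mu_p_pos _).2 (C.tt_xx hx hi).2)
    rw [C.n_p] at h1
    exact h1 he
  · rw [C.tt_ed_n hx hi] at he
    exact absurd he.symm hb.ed_ne
  · exact C.tt_hv_p hx hi

theorem strip_ed_g {b : D} (hb : C.Tri b) {x : D} (h : C.strip b x)
    (he : C.ed x = C.ed (C.p b)) : C.hv x = C.hv (C.p b) := by
  have hx := hb.2.2.1
  rcases h with rfl | rfl | ⟨i, hi, rfl | rfl | rfl | rfl⟩
  · exact absurd he hb.ed_ne
  · rfl
  · exfalso
    rw [← C.tt_ed_n hx hi] at he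
    exact C.ed_n_ne _ (C.tt_xx hx hi).1 he.symm
  · exfalso
    rw [← C.tt_ed_n hx hi, C.ed_r] at he
    exact C.ed_n_ne _ (C.tt_xx hx hi).1 he.symm
  · exact C.tt_hv_n hx hi
  · rw [C.tt_ed_p hx hi] at he
    exact absurd he hb.ed_ne

theorem strip_f {b : D} (hb : C.Tri b) (ht : C.Tri (C.far b)) {x : D}
    (he : C.ed x = C.ed (C.n b)) (hh : C.hv x = C.hv (C.n b)) : C.strip b x := by
  have hx := hb.2.2.1
  have h1 := C.mu_ed x (C.p (C.far b)) (by rw [he, C.far_ed_p hx])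
  rw [ht.mu_rp, C.far_mu_p hx, hb.2.2.2] at h1
  rcases Nat.eq_zero_or_pos (C.mu x) with h2 | h2
  · exact Or.inl (C.ext _ _ he hh (by rw [h2, hb.2.2.2]))
  · obtain ⟨i, hi⟩ : ∃ i, C.mu x = i + 1 := ⟨C.mu x - 1, by omega⟩
    refine Or.inr (Or.inr ⟨i, by omega, Or.inr (Or.inr (Or.inr ?_))⟩)
    have h3 : i ≤ C.slen b := by omega
    refine C.ext _ _ (by rw [C.tt_ed_p hx h3, he]) (by rw [C.tt_hv_p hx h3, hh]) ?_
    rw [C.tt_mu_p hx h3, hb.2.2.2]
    omega

theorem strip_g {b : D} (hb : C.Tri b) (ht : C.Tri (C.far b)) {x : D}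
    (he : C.ed x = C.ed (C.p b)) (hh : C.hv x = C.hv (C.p b)) : C.strip b x := by
  have hx := hb.2.2.1
  have h1 := C.mu_ed x (C.p b) he
  have h4 := C.far_mu_n hx
  rw [ht.2.2.2] at h4
  rw [hb.mu_rp] at h1
  rcases Nat.eq_or_lt_of_le (show C.mu x ≤ C.mu (C.p b) by omega) with h2 | h2
  · exact Or.inr (Or.inl (C.ext _ _ he hh h2))
  · refine Or.inr (Or.inr ⟨C.slen b - C.mu x, by omega, Or.inr (Or.inr (Or.inl ?_))⟩)
    have h3 : C.slen b - C.mu x ≤ C.slen b := by omega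
    refine C.ext _ _ (by rw [C.tt_ed_n hx h3, he]) (by rw [C.tt_hv_n hx h3, hh]) ?_
    have h5 := C.tt_mu_n hx h3
    omega

theorem strip_r {b : D} {x : D} (h : C.strip b x)
    (h1 : C.ed x ≠ C.ed (C.n b)) (h2 : C.ed x ≠ C.ed (C.p b)) (hb : C.Tri b) :
    C.strip b (C.r x) := by
  have hx := hb.2.2.1
  rcases h with rfl | rfl | ⟨i, hi, rfl | rfl | rfl | rfl⟩
  · exact absurd rfl h1
  · exact absurd rfl h2
  · exact Or.inr (Or.inr ⟨i, hi, Or.inr (Or.inl rfl)⟩)
  · exact Or.inr (Or.inr ⟨i, hi, Or.inl (by simp)⟩)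
  · exact absurd (C.tt_ed_n hx hi) h2
  · exact absurd (C.tt_ed_p hx hi) h1

/-- Lemma E: the far end of the strip at a triangle is not a triangle. -/
theorem Tri.not_tri_far {b : D} (hb : C.Tri b) : ¬ C.Tri (C.far b) := by
  intro ht
  have hx := hb.2.2.1
  have e1 : C.hv (C.n b) = C.hv (C.r (C.p b)) := hb.hv_rp.symm
  have e2 : C.hv (C.r (C.n b)) = C.hv (C.p b) := by
    rw [← C.far_hv_rp hx, ht.hv_rp, C.far_hv_n hx]
  obtain ⟨x, hs, hx1, hx2, hx3⟩ := C.lensS (C.n b) (C.r (C.p b))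
    (by rw [C.ed_r]; exact hb.ed_ne) e1 (by rw [C.r_r, e2]) (C.strip b)
    (fun x => ⟨fun h => by have := C.strip_p hb ht h; rwa [C.p_n] at this, C.strip_n hb ht⟩)
    (fun x h => C.strip_sg hb ht h)
    (fun x => by
      rw [C.ed_r]
      constructor
      · intro h
        refine ⟨fun he => ?_, fun he => ?_⟩
        · rcases C.hv_ed x (C.n b) he with h1 | h1
          · have h2 := h.1 (C.strip_f hb ht he h1)
            have h3 := C.strip_ed_f hb h2 (by rw [C.ed_r, he])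
            exact C.hv_r x (h3.trans h1.symm)
          · have h1' := C.hv_r_of' x (C.n b) he h1
            have h2 := h.2 (C.strip_f hb ht (by rw [C.ed_r, he]) h1')
            have h3 := C.strip_ed_f hb h2 he
            exact C.hv_r x (h1'.trans h3.symm)
        · rcases C.hv_ed x (C.p b) he with h1 | h1
          · have h2 := h.1 (C.strip_g hb ht he h1)
            have h3 := C.strip_ed_g hb h2 (by rw [C.ed_r, he])
            exact C.hv_r x (h3.trans h1.symm)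
          · have h1' := C.hv_r_of' x (C.p b) he h1
            have h2 := h.2 (C.strip_g hb ht (by rw [C.ed_r, he]) h1')
            have h3 := C.strip_ed_g hb h2 he
            exact C.hv_r x (h1'.trans h3.symm)
      · rintro ⟨h1, h2⟩
        refine ⟨fun h => C.strip_r h h1 h2 hb, fun h => ?_⟩
        have := C.strip_r h (by rwa [C.ed_r]) (by rwa [C.ed_r]) hb
        rwa [C.r_r] at this)
  rcases hs with rfl | rfl | ⟨i, hi, rfl | rfl | rfl | rfl⟩
  · have := (C.mu_rn_pos b).2 hx.1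
    omega
  · exact hx2 hb.hv_rp
  · have := (C.tt_xx hx hi).2
    omega
  · have := (C.tt_xx hx hi).1
    rw [C.r_r] at hx1
    omega
  · have := (C.mu_rn_pos _).2 (C.tt_xx hx hi).1
    omega
  · exact hx3 (C.hv_r_of _ _ (C.tt_ed_p hx hi) (C.tt_hv_p hx hi))

theorem T.not_tri {t : D} (h : C.T t) : ¬ C.Tri t := by
  obtain ⟨b, hb, rfl⟩ := h
  exact hb.not_tri_far

theorem T.big {t : D} (h : C.T t) : C.Big t := ⟨h.xx, h.not_tri, h.not_sq⟩

/-! ### The lemmas V1 and V2 -/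

theorem V1 {a : D} (h : C.XX a) (hs : ¬ C.Sq a) (ht : C.Tri (C.far a)) (ha : C.ap a) :
    C.par (C.n a) (C.p a) := by
  have hb := ht.2.2.1
  have h1 := C.far_hv_n hb
  have h2 := C.far_hv_rn hb
  have h3 := C.far_hv_p hb
  rw [C.far_far hs] at h1 h2 h3
  have h4 := (C.fan a h.1 h.2).1 ha
  exact Or.inr ⟨h4, by rw [h2, ht.hv_rp, h3]⟩

theorem V2 {t : D} (h : C.T t) (h2 : C.Tri (C.p (C.r (C.p t)))) :
    C.par (C.n t) (C.p t) ∨ C.par (C.p (C.p (C.r (C.p t)))) (C.p t) := by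
  have hx := h.xx
  by_cases hap : C.ap t
  · left
    have h4 := (C.fan t hx.1 hx.2).1 hap
    exact Or.inr ⟨h4, h.hv_rn⟩
  · right
    set b := C.p (C.r (C.p t)) with hb
    have hnb : C.n b = C.r (C.p t) := by rw [hb, C.n_p]
    have hst : C.st b = t := by
      unfold st
      rw [hnb, C.r_r, C.n_p]
    have hbx := h2.2.2.1
    have hap' : ¬ C.ap b := by
      rw [← C.ap_ed t b (by rw [← hst, C.ed_st _ hbx.1]) (by rw [← hst, C.hv_st _ hbx.1])]
      exact hap
    have h4 := (C.fan b hbx.1 hbx.2).2 hap'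
    rw [hnb, C.r_r] at h4
    have h5 := h2.hv_rp
    rw [hnb] at h5
    exact Or.inl ⟨h4.symm, h5⟩

end Pool.Agent.Q238.FP.Core
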