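import Pool.Agent.Q238.FP.Cell

/-!
# The weights of the darts of a cell
-/

set_option autoImplicit false

namespace Pool.Agent.Q238.FP.Core

variable {D E V : Type} (C : Core D E V)

/-- the last segment of an edge with crossing points -/
def XR (d : D) : Prop := C.mu d = 0 ∧ 0 < C.mu (C.r d)

def DW (t : D) : Prop := C.T t ∧ (C.P (C.p t) ∨ C.P t)

def DE (t : D) : Prop := C.T t ∧ (C.P (C.n t) ∨ C.P t)

open Classical in
/-- the weight of a dart -/
noncomputable def W (d : D) : ℤ :=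
  (if C.mu (C.r d) = 0 then 8 else 5) + (if C.Tri d then 2 else 0) - (if C.Big d then 1 else 0) -
    (if C.XR d ∧ ¬ C.Tri (C.p d) then 1 else 0) - (if C.DW d then 1 else 0) -
    (if C.DE d then 1 else 0)

theorem W_real {d : D} (h : C.mu (C.r d) = 0) : C.W d = 8 := by
  have hx : ¬ C.XX d := fun h' => by have := h'.2; omega
  have h1 : ¬ C.Tri d := fun h' => hx h'.2.2.1
  have h2 : ¬ C.Big d := fun h' => hx h'.1
  have h3 : ¬ (C.XR d ∧ ¬ C.Tri (C.p d)) := fun h' => by have := h'.1.2; omega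
  have h4 : ¬ C.DW d := fun h' => hx h'.1.xx
  have h5 : ¬ C.DE d := fun h' => hx h'.1.xx
  unfold W
  rw [if_pos h, if_neg h1, if_neg h2, if_neg h3, if_neg h4, if_neg h5]
  norm_num

open Classical in
theorem W_ge (d : D) : 4 - (if C.DW d then 1 else 0) - (if C.DE d then 1 else 0) ≤ C.W d := by
  by_cases h : C.mu (C.r d) = 0
  · rw [C.W_real h]
    split_ifs <;> norm_num
  · unfold W
    rw [if_neg h]
    by_cases hx : 0 < C.mu d
    · have h3 : ¬ (C.XR d ∧ ¬ C.Tri (C.p d)) := fun h' => by have := h'.1.1; omega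
      rw [if_neg h3]
      split_ifs <;> norm_num
    · have h2 : ¬ C.Big d := fun h' => hx h'.1.1
      rw [if_neg h2]
      split_ifs <;> norm_num

theorem W_ge2 (d : D) : 2 ≤ C.W d := by
  classical
  refine le_trans ?_ (C.W_ge d)
  split_ifs <;> norm_num

theorem W_ge4 {d : D} (h1 : ¬ C.DW d) (h2 : ¬ C.DE d) : 4 ≤ C.W d := by
  classical
  refine le_trans ?_ (C.W_ge d)
  rw [if_neg h1, if_neg h2]
  norm_num

theorem W_ge3 {d : D} (h1 : ¬ C.DW d) : 3 ≤ C.W d := by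
  classical
  refine le_trans ?_ (C.W_ge d)
  rw [if_neg h1]
  split_ifs <;> norm_num

theorem W_ge3' {d : D} (h1 : ¬ C.DE d) : 3 ≤ C.W d := by
  classical
  refine le_trans ?_ (C.W_ge d)
  rw [if_neg h1]
  split_ifs <;> norm_num

theorem W_noT {d : D} (h : ¬ C.T d) : 4 ≤ C.W d := C.W_ge4 (fun h' => h h'.1) (fun h' => h h'.1)

theorem W_noXX {d : D} (h : C.mu d = 0) : 4 ≤ C.W d := C.W_noT (fun h' => by
  have := h'.xx.1
  omega)

theorem Tri.W_b {b : D} (h : C.Tri b) : 7 ≤ C.W b := by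
  have h3 : ¬ (C.XR b ∧ ¬ C.Tri (C.p b)) := fun h' => by
    have := h'.1.1
    have := h.2.2.1.1
    omega
  have h2 : ¬ C.Big b := fun h' => h'.2.1 h
  have h4 : ¬ C.DW b := fun h' => absurd h h'.1.not_tri
  have h5 : ¬ C.DE b := fun h' => absurd h h'.1.not_tri
  have h6 : ¬ C.mu (C.r b) = 0 := by
    have := h.2.2.1.2
    omega
  unfold W
  rw [if_neg h6, if_pos h, if_neg h2, if_neg h3, if_neg h4, if_neg h5]
  norm_num

theorem Tri.W_n {b : D} (h : C.Tri b) : 5 ≤ C.W (C.n b) := by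
  have hx : ¬ C.XX (C.n b) := fun h' => by
    have := h'.1
    have := h.2.2.2
    omega
  have h1 : ¬ C.Tri (C.n b) := fun h' => hx h'.2.2.1
  have h2 : ¬ C.Big (C.n b) := fun h' => hx h'.1
  have h3 : ¬ (C.XR (C.n b) ∧ ¬ C.Tri (C.p (C.n b))) := fun h' => by
    rw [C.p_n] at h'
    exact h'.2 h
  have h4 : ¬ C.DW (C.n b) := fun h' => hx h'.1.xx
  have h5 : ¬ C.DE (C.n b) := fun h' => hx h'.1.xx
  unfold W
  rw [if_neg h1, if_neg h2, if_neg h3, if_neg h4, if_neg h5]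
  split_ifs <;> norm_num

theorem Sq.W_ {d : D} (h : C.Sq d) : 5 ≤ C.W d := by
  have hx := h.xx
  have h2 : ¬ C.Big d := fun h' => h'.2.2 h
  have h3 : ¬ (C.XR d ∧ ¬ C.Tri (C.p d)) := fun h' => by
    have := h'.1.1
    have := hx.1
    omega
  have h4 : ¬ C.DW d := fun h' => absurd h h'.1.not_sq
  have h5 : ¬ C.DE d := fun h' => absurd h h'.1.not_sq
  unfold W
  rw [if_neg h2, if_neg h3, if_neg h4, if_neg h5]
  split_ifs <;> norm_num

/-! ### sums over a cell -/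

noncomputable def OS (k : ℕ) (d : D) : ℤ := ∑ i ∈ Finset.range k, C.W (C.n^[i] d)

theorem OS_n {k : ℕ} {d : D} (h : C.n^[k] d = d) : C.OS k (C.n d) = C.OS k d := by
  unfold OS
  have h1 := Finset.sum_range_succ (fun i => C.W (C.n^[i] d)) k
  have h2 := Finset.sum_range_succ' (fun i => C.W (C.n^[i] d)) k
  simp only [Function.iterate_succ_apply, Function.iterate_zero, id_eq] at h2
  rw [h1, h] at h2
  linarith

theorem iter_n {k : ℕ} {d : D} (h : C.n^[k] d = d) (j : ℕ) : C.n^[k] (C.n^[j] d) = C.n^[j] d := by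
  rw [← Function.iterate_add_apply, Nat.add_comm, Function.iterate_add_apply, h]

theorem OS_iter {k : ℕ} {d : D} (h : C.n^[k] d = d) (j : ℕ) : C.OS k (C.n^[j] d) = C.OS k d := by
  induction j with
  | zero => rfl
  | succ j ih => rw [Function.iterate_succ_apply', C.OS_n (C.iter_n h j), ih]

theorem mu_iter_pos {d : D} {j : ℕ} (h : 0 < C.mu (C.n^[j] d)) :
    0 < C.mu (C.r (C.n^[j + 1] d)) := by
  rw [Function.iterate_succ_apply', C.mu_rn_pos]
  exact h

/-- cells with at least six sides and a vertex -/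
theorem OS_real6 {k : ℕ} {d : D} (h : C.n^[k + 6] d = d) (h0 : C.mu (C.r d) = 0) :
    20 ≤ C.OS (k + 6) d := by
  unfold OS
  rw [show k + 6 = (k + 4 + 1) + 1 by ring, Finset.sum_range_succ, Finset.sum_range_succ']
  have h1 : C.W (C.n^[0] d) = 8 := C.W_real h0
  have h2 : 4 ≤ C.W (C.n^[k + 4 + 1] d) := by
    apply C.W_noXX
    rw [C.real_mu, ← Function.iterate_succ_apply' C.n, show (k + 4 + 1).succ = k + 6 by rfl, h]
    exact h0
  have h3 : (2 : ℤ) * (k + 4 : ℕ) ≤ ∑ i ∈ Finset.range (k + 4), C.W (C.n^[i + 1] d) := by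
    have := Finset.card_nsmul_le_sum (Finset.range (k + 4)) (fun i => C.W (C.n^[i + 1] d)) 2
      (fun i _ => C.W_ge2 _)
    simp only [Finset.card_range, nsmul_eq_mul] at this
    linarith
  push_cast at h3
  rw [h1]
  have : (0 : ℤ) ≤ k := by positivity
  linarith

theorem OS_ge10 {k : ℕ} (d : D) : 20 ≤ C.OS (k + 10) d := by
  unfold OS
  have := Finset.card_nsmul_le_sum (Finset.range (k + 10)) (fun i => C.W (C.n^[i] d)) 2
      (fun i _ => C.W_ge2 _)
  simp only [Finset.card_range, nsmul_eq_mul] at this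
  push_cast at this
  have h0 : (0 : ℤ) ≤ k := by positivity
  linarith

theorem OS_tri {d : D} (h : C.Tri d) : 20 ≤ C.OS 3 d := by
  unfold OS
  simp only [Finset.sum_range_succ, Finset.sum_range_zero, Function.iterate_succ_apply',
    Function.iterate_zero, id_eq]
  have h1 := h.W_b
  have h2 := h.W_n
  have h3 : C.W (C.n (C.n d)) = 8 := C.W_real ((C.real_mu _).1 h.2.2.2)
  linarith

theorem OS_sq {d : D} (h : C.Sq d) : 20 ≤ C.OS 4 d := by
  unfold OS
  simp only [Finset.sum_range_succ, Finset.sum_range_zero, Function.iterate_succ_apply',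
    Function.iterate_zero, id_eq]
  have h1 := h.W_
  have h2 := h.n_.W_
  have h3 := h.n_.n_.W_
  have h4 := h.n_.n_.n_.W_
  linarith

theorem OS_real3 {d : D} (hs : C.sg d) (h : C.n (C.n (C.n d)) = d) (h0 : C.mu (C.r d) = 0)
    (hT : ¬ C.Tri (C.n d)) : 20 ≤ C.OS 3 d := by
  unfold OS
  simp only [Finset.sum_range_succ, Finset.sum_range_zero, Function.iterate_succ_apply',
    Function.iterate_zero, id_eq]
  have h1 : C.W d = 8 := C.W_real h0
  have h2 : C.mu (C.n (C.n d)) = 0 := by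
    rw [C.real_mu, h]
    exact h0
  have h3 := C.W_noXX h2
  rcases Nat.eq_zero_or_pos (C.mu d) with h4 | h4
  · have h5 : C.W (C.n d) = 8 := C.W_real ((C.real_mu _).1 h4)
    linarith
  · rcases Nat.eq_zero_or_pos (C.mu (C.n d)) with h6 | h6
    · have h5 : C.W (C.n (C.n d)) = 8 := C.W_real ((C.real_mu _).1 h6)
      have h7 := C.W_noXX h6
      linarith
    · exfalso
      apply hT
      refine ⟨by simpa using hs, by rw [h], ⟨h6, (C.mu_rn_pos _).2 h4⟩, h2⟩

theorem not_DW {d : D} (h1 : ¬ C.P (C.p d)) (h2 : ¬ C.P d) : ¬ C.DW d := fun h =>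
  h.2.elim h1 h2

theorem not_DE {d : D} (h1 : ¬ C.P (C.n d)) (h2 : ¬ C.P d) : ¬ C.DE d := fun h =>
  h.2.elim h1 h2

theorem not_P_of_mu {d : D} (h : C.mu d = 0) : ¬ C.P d := fun h' => by
  have := h'.1.1
  omega

theorem not_P_of_mu_r {d : D} (h : C.mu (C.r d) = 0) : ¬ C.P d := fun h' => by
  have := h'.1.2
  omega

theorem OS_real4 {d : D} (h : C.n (C.n (C.n (C.n d))) = d) (h0 : C.mu (C.r d) = 0) :
    20 ≤ C.OS 4 d := by
  unfold OS
  simp only [Finset.sum_range_succ, Finset.sum_range_zero, Function.iterate_succ_apply',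
    Function.iterate_zero, id_eq]
  have h1 : C.W d = 8 := C.W_real h0
  have h2 : C.mu (C.n (C.n (C.n d))) = 0 := by
    rw [C.real_mu, h]
    exact h0
  have h3 := C.W_noXX h2
  have g1 := C.W_ge2 (C.n d)
  have g2 := C.W_ge2 (C.n (C.n d))
  rcases Nat.eq_zero_or_pos (C.mu d) with h4 | h4
  · have h5 : C.W (C.n d) = 8 := C.W_real ((C.real_mu _).1 h4)
    linarith
  rcases Nat.eq_zero_or_pos (C.mu (C.n d)) with h6 | h6
  · have h5 : C.W (C.n (C.n d)) = 8 := C.W_real ((C.real_mu _).1 h6)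
    linarith
  rcases Nat.eq_zero_or_pos (C.mu (C.n (C.n d))) with h7 | h7
  · have h5 : C.W (C.n (C.n (C.n d))) = 8 := C.W_real ((C.real_mu _).1 h7)
    linarith
  have p1 : ¬ C.P (C.n d) := fun hP => C.f4a h h4 h6 h7 h2 hP
  have p2 : ¬ C.P (C.n (C.n d)) := fun hP => C.f4b h h4 h6 h7 h2 hP
  have p0 : ¬ C.P d := C.not_P_of_mu_r h0
  have p3 : ¬ C.P (C.n (C.n (C.n d))) := C.not_P_of_mu h2
  have g3 : 4 ≤ C.W (C.n d) := C.W_ge4 (C.not_DW (by rwa [C.p_n]) p1) (C.not_DE p2 p1)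
  have g4 : 4 ≤ C.W (C.n (C.n d)) := C.W_ge4 (C.not_DW (by rwa [C.p_n]) p2) (C.not_DE p3 p2)
  linarith

theorem OS_real5 {d : D} (h : C.n (C.n (C.n (C.n (C.n d)))) = d) (h0 : C.mu (C.r d) = 0) :
    20 ≤ C.OS 5 d := by
  unfold OS
  simp only [Finset.sum_range_succ, Finset.sum_range_zero, Function.iterate_succ_apply',
    Function.iterate_zero, id_eq]
  have h1 : C.W d = 8 := C.W_real h0
  have h2 : C.mu (C.n (C.n (C.n (C.n d)))) = 0 := by
    rw [C.real_mu, h]
    exact h0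
  have h3 := C.W_noXX h2
  have g1 := C.W_ge2 (C.n d)
  have g2 := C.W_ge2 (C.n (C.n d))
  have g3 := C.W_ge2 (C.n (C.n (C.n d)))
  rcases Nat.eq_zero_or_pos (C.mu d) with h4 | h4
  · have h5 : C.W (C.n d) = 8 := C.W_real ((C.real_mu _).1 h4)
    linarith
  rcases Nat.eq_zero_or_pos (C.mu (C.n d)) with h6 | h6
  · have h5 : C.W (C.n (C.n d)) = 8 := C.W_real ((C.real_mu _).1 h6)
    linarith
  rcases Nat.eq_zero_or_pos (C.mu (C.n (C.n d))) with h7 | h7
  · have h5 : C.W (C.n (C.n (C.n d))) = 8 := C.W_real ((C.real_mu _).1 h7)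
    linarith
  rcases Nat.eq_zero_or_pos (C.mu (C.n (C.n (C.n d)))) with h8 | h8
  · have h5 : C.W (C.n (C.n (C.n (C.n d)))) = 8 := C.W_real ((C.real_mu _).1 h8)
    linarith
  have p1 : ¬ C.P (C.n d) := fun hP => C.f51a h h4 h6 h7 h8 h2 hP
  have p2 : ¬ C.P (C.n (C.n (C.n d))) := fun hP => C.f51b h h4 h6 h7 h8 h2 hP
  have p0 : ¬ C.P d := C.not_P_of_mu_r h0
  have p3 : ¬ C.P (C.n (C.n (C.n (C.n d)))) := C.not_P_of_mu h2
  have g3 : 3 ≤ C.W (C.n d) := C.W_ge3 (C.not_DW (by rwa [C.p_n]) p1)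
  have g4 : 3 ≤ C.W (C.n (C.n (C.n d))) := C.W_ge3' (C.not_DE p3 p2)
  linarith

end Pool.Agent.Q238.FP.Core
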